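import Pool.Agent.H78.Dis.Types

set_option autoImplicit false

/-! # Bounds for `exts` -/

open Finset Fintype

namespace H78D

variable {X : Type} [Fintype X] [DecidableEq X] {V : Type} [Fintype V]

open Classical in
lemma mem_exts_set {K : SimpleGraph X} {a : X → ℕ} {W : ℕ} {G : SimpleGraph V}
    {S : X × Fin 3 → Finset V} {φ : (Σ r : X × Fin 3, Fin (W * a r.1)) → V} :
    φ ∈ ((univ : Finset ((Σ r : X × Fin 3, Fin (W * a r.1)) → V)).filter (fun φ =>
    (∀ p, φ p ∈ S p.1) ∧ ∀ p q, (HR K).Adj p.1 q.1 → G.Adj (φ p) (φ q))) ↔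
    (∀ p, φ p ∈ S p.1) ∧ ∀ p q, (HR K).Adj p.1 q.1 → G.Adj (φ p) (φ q) := by
  simp

lemma prod_sigma (a : X → ℕ) (W : ℕ) (S : X × Fin 3 → Finset V) :
    ∏ p : (Σ r : X × Fin 3, Fin (W * a r.1)), #(S p.1) =
      ∏ r : X × Fin 3, #(S r) ^ (W * a r.1) := by
  rw [← Finset.univ_sigma_univ, Finset.prod_sigma]
  apply Finset.prod_congr rfl
  intro r _
  simp

lemma exts_le (K : SimpleGraph X) (a : X → ℕ) (W : ℕ) (G : SimpleGraph V)
    (S : X × Fin 3 → Finset V) : exts K a W G S ≤ ∏ r : X × Fin 3, #(S r) ^ (W * a r.1) := by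
  classical
  rw [← prod_sigma, ← Fintype.card_piFinset]
  apply Finset.card_le_card
  intro φ hφ
  rw [mem_filter] at hφ
  rw [Fintype.mem_piFinset]
  exact hφ.2.1

open Classical in
/-- override the values of `φ` at the first `W` bulk vertices of the roles `r` and `s`. -/
noncomputable def ovr {a : X → ℕ} {W : ℕ} (r s : X × Fin 3)
    (φ : (Σ r : X × Fin 3, Fin (W * a r.1)) → V) (ω : Fin W → V × V) :
    (Σ r : X × Fin 3, Fin (W * a r.1)) → V := fun p =>
  if h : p.2.val < W then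
    if p.1 = r then (ω ⟨p.2.val, h⟩).1 else if p.1 = s then (ω ⟨p.2.val, h⟩).2 else φ p
  else φ p

lemma exts_pair (K : SimpleGraph X) (a : X → ℕ) (W : ℕ) (G : SimpleGraph V)
    (S : X × Fin 3 → Finset V) (r s : X × Fin 3) (hrs : (HR K).Adj r s)
    (har : 0 < a r.1) (has : 0 < a s.1) (E : Finset (V × V))
    (hE : ∀ u ∈ S r, ∀ w ∈ S s, G.Adj u w → (u, w) ∈ E) :
    exts K a W G S * (#(S r) * #(S s)) ^ W ≤ #E ^ W * ∏ r : X × Fin 3, #(S r) ^ (W * a r.1) := by
  classical
  have hne : r ≠ s := (HR K).ne_of_adj hrs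
  set A := (univ : Finset ((Σ r : X × Fin 3, Fin (W * a r.1)) → V)).filter (fun φ =>
    (∀ p, φ p ∈ S p.1) ∧ ∀ p q, (HR K).Adj p.1 q.1 → G.Adj (φ p) (φ q)) with hA
  have hr : ∀ i : Fin W, i.val < W * a r.1 := fun i =>
    lt_of_lt_of_le i.2 (Nat.le_mul_of_pos_right _ har)
  have hs : ∀ i : Fin W, i.val < W * a s.1 := fun i =>
    lt_of_lt_of_le i.2 (Nat.le_mul_of_pos_right _ has)
  have h1 : #(A ×ˢ Fintype.piFinset (fun _ : Fin W => S r ×ˢ S s)) ≤
      #(Fintype.piFinset (fun _ : Fin W => E) ×ˢ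
        Fintype.piFinset (fun p : (Σ r : X × Fin 3, Fin (W * a r.1)) => S p.1)) := by
    apply Finset.card_le_card_of_injOn
      (fun q => ((fun i : Fin W => (q.1 ⟨r, ⟨i.val, hr i⟩⟩, q.1 ⟨s, ⟨i.val, hs i⟩⟩)),
        ovr r s q.1 q.2))
    · rintro ⟨φ, ω⟩ hq
      rw [mem_coe, mem_product, Fintype.mem_piFinset] at hq
      obtain ⟨hφ, hω⟩ := hq
      rw [hA, mem_filter] at hφ
      obtain ⟨-, hφ1, hφ2⟩ := hφ
      rw [mem_coe, mem_product, Fintype.mem_piFinset, Fintype.mem_piFinset]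
      constructor
      · intro i
        exact hE _ (hφ1 _) _ (hφ1 _) (hφ2 _ _ hrs)
      · intro p
        simp only [ovr]
        split_ifs with h1 h2 h3
        · have e : S p.1 = S r := by rw [h2]
          rw [e]; exact (mem_product.mp (hω _)).1
        · have e : S p.1 = S s := by rw [h3]
          rw [e]; exact (mem_product.mp (hω _)).2
        · exact hφ1 p
        · exact hφ1 p
    · rintro ⟨φ, ω⟩ hq ⟨φ', ω'⟩ hq' heq
      simp only [Prod.mk.injEq] at heq
      obtain ⟨e1, e2⟩ := heq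
      have e1' : ∀ i : Fin W, φ ⟨r, ⟨i.val, hr i⟩⟩ = φ' ⟨r, ⟨i.val, hr i⟩⟩ ∧
          φ ⟨s, ⟨i.val, hs i⟩⟩ = φ' ⟨s, ⟨i.val, hs i⟩⟩ := by
        intro i
        have := congrFun e1 i
        simpa using this
      have hω : ω = ω' := by
        funext i
        have h2 := congrFun e2 ⟨r, ⟨i.val, hr i⟩⟩
        have h3 := congrFun e2 ⟨s, ⟨i.val, hs i⟩⟩
        simp only [ovr, i.2, dif_pos, if_true, if_neg hne.symm] at h2 h3
        exact Prod.ext h2 h3
      have hφ : φ = φ' := by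
        funext p
        obtain ⟨t, j⟩ := p
        by_cases hj : j.val < W
        · by_cases h2 : t = r
          · subst h2
            exact (e1' ⟨j.val, hj⟩).1
          · by_cases h3 : t = s
            · subst h3
              exact (e1' ⟨j.val, hj⟩).2
            · have := congrFun e2 ⟨t, j⟩
              simpa only [ovr, hj, dif_pos, if_neg h2, if_neg h3] using this
        · have := congrFun e2 ⟨t, j⟩
          simpa only [ovr, hj, dif_neg, not_false_eq_true] using this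
      rw [hω, hφ]
  rw [card_product, card_product, Fintype.card_piFinset_const, Fintype.card_piFinset_const,
    card_product, Fintype.card_piFinset, prod_sigma] at h1
  exact h1

end H78D
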