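import Mathlib
import Pool.Agent.H67.Blow.CopyCount

set_option autoImplicit false

/-!
# Disproof of Q1 of MP_c9b280_co for `k = 4`: definitions and statements of the modules

`K` is a fixed graph on `X` (30 vertices in the instance), `L ⊆ X` a set of far vertices. The
graph `H = HG K a W` is the blow-up of `HR K = K × K_3` with `W * a x + 3` vertices for each role
`(x, l)`. All graphs `G` below live on a finite type `V`.
-/

open Finset Fintype

namespace H78D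

open H67Blow (num injs)

variable {X : Type}

/-- role graph `K × K_3`. -/
def HR (K : SimpleGraph X) : SimpleGraph (X × Fin 3) where
  Adj r s := K.Adj r.1 s.1 ∧ r.2 ≠ s.2
  symm := ⟨fun _ _ h => ⟨h.1.symm, h.2.symm⟩⟩
  loopless := ⟨fun _ h => h.2 rfl⟩

@[simp] lemma HR_adj (K : SimpleGraph X) (r s : X × Fin 3) :
    (HR K).Adj r s ↔ K.Adj r.1 s.1 ∧ r.2 ≠ s.2 := Iff.rfl

/-- vertices of `H`: `W * a x` bulk vertices and 3 special vertices for each role. -/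
abbrev HV (a : X → ℕ) (W : ℕ) : Type := Σ r : X × Fin 3, (Fin (W * a r.1) ⊕ Fin 3)

/-- the graph `H`. -/
def HG (K : SimpleGraph X) (a : X → ℕ) (W : ℕ) : SimpleGraph (HV a W) :=
  (HR K).comap Sigma.fst

@[simp] lemma HG_adj (K : SimpleGraph X) (a : X → ℕ) (W : ℕ) (p q : HV a W) :
    (HG K a W).Adj p q ↔ K.Adj p.1.1 q.1.1 ∧ p.1.2 ≠ q.1.2 := Iff.rfl

variable [Fintype X] [DecidableEq X]

/-- total weight -/
def tot (a : X → ℕ) : ℕ := ∑ x, a x

/-- relative weights -/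
noncomputable def th (a : X → ℕ) (x : X) : ℝ := (a x : ℝ) / (tot a : ℝ)

/-- the properties of the pattern `K` used in the proof. -/
structure Good (K : SimpleGraph X) (L : Finset X) (lev a : X → ℕ) : Prop where
  k4 : ∀ x y z w, K.Adj x y → K.Adj x z → K.Adj x w → K.Adj y z → K.Adj y w → K.Adj z w → False
  farNonadj : ∀ x ∈ L, ∀ y ∈ L, ¬ K.Adj x y
  far : ∀ x ∈ L, ∀ y ∈ L, x ≠ y → ∀ z, K.Adj z x → K.Adj z y → False
  /-- nonadjacent pairs (also `x = y`) outside `L` have an edge in the common neighbourhood -/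
  mid : ∀ x y, ¬ K.Adj x y → (x ∈ L → y ∈ L → x = y) →
    ∃ b c, K.Adj b c ∧ K.Adj b x ∧ K.Adj b y ∧ K.Adj c x ∧ K.Adj c y
  /-- the union of two neighbourhoods contains a triangle -/
  uni : ∀ x y, x ≠ y → ∃ b c d, K.Adj b c ∧ K.Adj b d ∧ K.Adj c d ∧ K.Adj x b ∧ K.Adj y c ∧
    (K.Adj x d ∨ K.Adj y d)
  levels : ∀ x₁ x₂ x₃, x₁ ≠ x₂ → x₁ ≠ x₃ → x₂ ≠ x₃ → ∃ b c d, K.Adj b c ∧ K.Adj b d ∧ K.Adj c d ∧
    (K.Adj x₁ b ∨ K.Adj x₂ b ∨ K.Adj x₃ b) ∧ (K.Adj x₁ c ∨ K.Adj x₂ c ∨ K.Adj x₃ c) ∧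
    (K.Adj x₁ d ∨ K.Adj x₂ d ∨ K.Adj x₃ d) ∧ (lev b < lev x₁ ∨ lev b < lev x₂ ∨ lev b < lev x₃)
  /-- triangle connectivity of `K × K_3` -/
  tc : ∀ D : X × Fin 3 → Prop, (∀ r s q, (HR K).Adj r s → (HR K).Adj r q → (HR K).Adj s q →
    D r → D s → D q) → ∀ r s, (HR K).Adj r s → D r → D s → ∀ q, D q
  avoid : ∀ x y, ∃ z w, K.Adj z w ∧ z ≠ x ∧ z ≠ y ∧ w ≠ x ∧ w ≠ y
  apos : ∀ x, 0 < a x
  notL : ∃ x, x ∉ L
  Lne : L.Nonempty
  /-- hierarchy of the weights; `Q = {x | lev x ≤ lev x₀}` -/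
  hn : ∀ x₀, 3 * (∑ x ∈ univ.filter (fun x => lev x₀ < lev x), (a x : ℝ) * Real.log (tot a / a x)
      + (∑ x ∈ univ.filter (fun x => lev x ≤ lev x₀), (a x : ℝ)) *
        Real.log (tot a / ∑ x ∈ univ.filter (fun x => lev x ≤ lev x₀), (a x : ℝ)))
      ≤ (a x₀ : ℝ) / 2 * Real.log 2

/-- exact splitting of classes: `Al x T` says that vertices of class `x` may get colour `T ∈ L`. -/
def Flex (K : SimpleGraph X) (L : Finset X) (a : X → ℕ) : Prop :=
  ∃ Al : X → X → Prop, (∀ x y T, Al x T → Al y T → ¬ K.Adj x y ∧ (x ∈ L → y ∈ L → x = y)) ∧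
    ∃ δ : ℝ, 0 < δ ∧ ∀ (m : ℕ) (s u : X → ℕ), ∑ x, s x = m → ∑ T ∈ L, u T = m →
      (∀ x, |(s x : ℝ) - th a x * m| ≤ δ * m) →
      (∀ T ∈ L, |(u T : ℝ) - th a T / (∑ x ∈ L, th a x) * m| ≤ δ * m) →
      ∃ z : X → X → ℕ, (∀ x, ∑ T ∈ L, z x T = s x) ∧ (∀ T ∈ L, ∑ x, z x T = u T) ∧
        ∀ x, ∀ T ∈ L, z x T ≠ 0 → Al x T

/-- `G` is a `K_4`-free graph with the maximum number of labelled copies of `H`. -/
def Ext {U V : Type} [Fintype U] [Fintype V] (H : SimpleGraph U) (G : SimpleGraph V) : Prop :=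
  G.CliqueFree 4 ∧ ∀ G' : SimpleGraph V, G'.CliqueFree 4 → num H G' ≤ num H G

open Classical in
/-- an almost complete `K`-blow-up in `G` with parts of relative size at least `θ x - ε`. -/
def Fam {V : Type} [Fintype V] (K : SimpleGraph X) (θ : X → ℝ) (ε : ℝ) (G : SimpleGraph V)
    (S : X → Finset V) : Prop :=
  (∀ x y, x ≠ y → Disjoint (S x) (S y)) ∧ (∀ x, (θ x - ε) * card V ≤ #(S x)) ∧
  (∀ x y, K.Adj x y → (#((S x ×ˢ S y).filter (fun p => ¬ G.Adj p.1 p.2)) : ℝ)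
    ≤ ε * (card V : ℝ) ^ 2)

/-! ## Module LB: lower bound and degrees -/

open Classical in
/-- LB+DEG: in an extremal graph every vertex is used often by some role. -/
def StDeg : Prop := ∀ (X : Type) [Fintype X] [DecidableEq X] (K : SimpleGraph X) (L : Finset X)
    (lev a : X → ℕ), Good K L lev a → ∀ W : ℕ, ∃ n₀ : ℕ, ∀ (V : Type) [Fintype V],
    n₀ ≤ card V → ∀ G : SimpleGraph V, Ext (HG K a W) G → ∀ v : V, ∃ r₀ : X × Fin 3,
    1 / (4 * (3 * card X : ℝ)) * ∏ x : X, (th a x * card V) ^ (3 * (W * a x + 3)) ≤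
      (#((injs (HG K a W) G).filter (fun f => f ⟨r₀, Sum.inr 2⟩ = v)) : ℝ) * card V

/-! ## Module CNT: counting with representatives -/

section cnt

variable {V : Type} [Fintype V]

open Classical in
/-- common neighbourhood of all `g (y, m)` with `y ∼ x`. -/
noncomputable def Yset (K : SimpleGraph X) (G : SimpleGraph V) (g : X × Fin 3 → V) (x : X) :
    Finset V :=
  univ.filter (fun u => ∀ y m, K.Adj x y → G.Adj u (g (y, m)))

open Classical in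
/-- the set of possible images for the bulk vertices of role `r`. -/
noncomputable def Xset (K : SimpleGraph X) (G : SimpleGraph V) (g₁ g₂ : X × Fin 3 → V)
    (B : Finset (X × Fin 3)) (r₀ : X × Fin 3) (v : V) (r : X × Fin 3) : Finset V :=
  univ.filter (fun u => (∀ s, (HR K).Adj r s → G.Adj u (g₁ s) ∧ G.Adj u (g₂ s)) ∧
    (r ∈ B → u ∉ Yset K G g₁ r.1) ∧ ((HR K).Adj r r₀ → G.Adj u v))

/-- `g₁` is a copy of the role graph, and `g₂ r` is in `Yset` for `r ∉ B`. -/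
def Valid (K : SimpleGraph X) (G : SimpleGraph V) (g₁ g₂ : X × Fin 3 → V)
    (B : Finset (X × Fin 3)) : Prop :=
  (∀ r s, (HR K).Adj r s → G.Adj (g₁ r) (g₁ s)) ∧ ∀ r, r ∉ B → g₂ r ∈ Yset K G g₁ r.1

open Classical in
/-- the number of ways to choose the bulk vertices. -/
noncomputable def exts (K : SimpleGraph X) (a : X → ℕ) (W : ℕ) (G : SimpleGraph V)
    (S : X × Fin 3 → Finset V) : ℕ :=
  #((univ : Finset ((Σ r : X × Fin 3, Fin (W * a r.1)) → V)).filter (fun φ =>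
    (∀ p, φ p ∈ S p.1) ∧ ∀ p q, (HR K).Adj p.1 q.1 → G.Adj (φ p) (φ q)))

end cnt

/-- CNT -/
def StCnt : Prop := ∀ (X : Type) [Fintype X] [DecidableEq X] (K : SimpleGraph X)
    (a : X → ℕ) (W : ℕ) (V : Type) [Fintype V] (G : SimpleGraph V) (v : V) (r₀ : X × Fin 3)
    (M : ℝ), 0 ≤ M →
    (∀ g₁ g₂ B, Valid K G g₁ g₂ B → (exts K a W G (Xset K G g₁ g₂ B r₀ v) : ℝ) ≤ M) →
    (open Classical in (#((injs (HG K a W) G).filter (fun f => f ⟨r₀, Sum.inr 2⟩ = v)) : ℝ)) * card V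
      ≤ (∏ r : X × Fin 3, ((W * a r.1 : ℕ) + 1 : ℝ)) * (card V : ℝ) ^ (3 * card (X × Fin 3)) * M

/-! ## Module TL: types -/

/-- product bound -/
def StTL : Prop := ∀ (X : Type) [Fintype X] [DecidableEq X] (K : SimpleGraph X) (L : Finset X)
    (lev a : X → ℕ), Good K L lev a → ∀ (V : Type) [Fintype V] (G : SimpleGraph V),
    G.CliqueFree 4 → ∀ (W : ℕ) (v : V) (r₀ : X × Fin 3) (g₁ g₂ : X × Fin 3 → V)
    (B : Finset (X × Fin 3)), Valid K G g₁ g₂ B →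
    (B = ∅ → ∑ r : X × Fin 3, #(Xset K G g₁ g₂ B r₀ v r) ≤ 3 * card V) ∧
    (∏ r : X × Fin 3, (#(Xset K G g₁ g₂ B r₀ v r) : ℝ) ^ (W * a r.1) ≤
      (∏ r : X × Fin 3, (th a r.1 * card V) ^ (W * a r.1)) *
        (if B = ∅ then 1 else (2 : ℝ) ^ (-(W : ℝ) / 2)))

/-! ## Module SB: stability -/

/-- near optimal choices give a family. -/
def StSB : Prop := ∀ (X : Type) [Fintype X] [DecidableEq X] (K : SimpleGraph X) (L : Finset X)
    (lev a : X → ℕ), Good K L lev a → ∀ (ε c : ℝ), 0 < ε → 0 < c → ∃ W₀ : ℕ, ∀ W ≥ W₀,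
    ∀ (V : Type) [Fintype V] (G : SimpleGraph V), G.CliqueFree 4 →
    ∀ (v : V) (r₀ : X × Fin 3) (g₁ g₂ : X × Fin 3 → V) (B : Finset (X × Fin 3)),
    Valid K G g₁ g₂ B →
    c / (∏ r : X × Fin 3, ((W * a r.1 : ℕ) + 1 : ℝ)) *
      ∏ r : X × Fin 3, (th a r.1 * card V) ^ (W * a r.1) ≤
        (exts K a W G (Xset K G g₁ g₂ B r₀ v) : ℝ) →
    ∃ S : X → Finset V, Fam K (th a) ε G S ∧ ∀ y, K.Adj r₀.1 y → ∀ u ∈ S y, G.Adj v u

/-- AT -/
def StAT : Prop := ∀ (X : Type) [Fintype X] [DecidableEq X] (K : SimpleGraph X) (L : Finset X)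
    (lev a : X → ℕ), Good K L lev a → ∀ ε : ℝ, 0 < ε → ∃ W₀ : ℕ, ∀ W ≥ W₀, ∃ n₀ : ℕ,
    ∀ (V : Type) [Fintype V], n₀ ≤ card V → ∀ G : SimpleGraph V, Ext (HG K a W) G → ∀ v : V,
    ∃ (S : X → Finset V) (x : X), Fam K (th a) ε G S ∧ ∀ y, K.Adj x y → ∀ u ∈ S y, G.Adj v u

/-! ## Module ST: structure -/

open Classical in
/-- the combinatorial part: families at all vertices give a global type function. -/
def StST : Prop := ∀ (X : Type) [Fintype X] [DecidableEq X] (K : SimpleGraph X) (L : Finset X)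
    (lev a : X → ℕ), Good K L lev a → ∀ δ : ℝ, 0 < δ → ∃ ε : ℝ, 0 < ε ∧
    ∀ (V : Type) [Fintype V] [Nonempty V] (G : SimpleGraph V), G.CliqueFree 4 →
    (∀ v : V, ∃ (S : X → Finset V) (x : X), Fam K (th a) ε G S ∧
      ∀ y, K.Adj x y → ∀ u ∈ S y, G.Adj v u) →
    ∃ τ : V → X, (∀ u v, G.Adj u v → K.Adj (τ u) (τ v) ∨ (τ u ≠ τ v ∧ τ u ∈ L ∧ τ v ∈ L)) ∧
      ∀ x, |(#(univ.filter (fun v => τ v = x)) : ℝ) - th a x * card V| ≤ δ * card V

/-- exact structure -/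
def Str {V : Type} (K : SimpleGraph X) (L : Finset X) (G : SimpleGraph V) (τ : V → X) : Prop :=
  (∀ u v, K.Adj (τ u) (τ v) → G.Adj u v) ∧
  (∀ u v, G.Adj u v → K.Adj (τ u) (τ v) ∨ (τ u ≠ τ v ∧ τ u ∈ L ∧ τ v ∈ L))

open Classical in
/-- exactness: adding the missing edges of the blow-up gives more copies. -/
def StEX : Prop := ∀ (X : Type) [Fintype X] [DecidableEq X] (K : SimpleGraph X) (L : Finset X)
    (lev a : X → ℕ), Good K L lev a → ∀ (W : ℕ) (V : Type) [Fintype V] (G : SimpleGraph V)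
    (τ : V → X), Ext (HG K a W) G →
    (∀ u v, G.Adj u v → K.Adj (τ u) (τ v) ∨ (τ u ≠ τ v ∧ τ u ∈ L ∧ τ v ∈ L)) →
    (∀ x, card (HV a W) ≤ #(univ.filter (fun v => τ v = x))) →
    ∀ u v, K.Adj (τ u) (τ v) → G.Adj u v

/-- purity -/
def StPU : Prop := ∀ (X : Type) [Fintype X] [DecidableEq X] (K : SimpleGraph X) (L : Finset X)
    (lev a : X → ℕ), Good K L lev a → ∀ (W : ℕ) (V : Type) [Fintype V] (G : SimpleGraph V)
    (τ : V → X), Str K L G τ →
    num (HG K a W) G = num (HG K a W) (K.comap τ) +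
      num (HG K a W) (G.induce {v | τ v ∈ L})

/-- transplant: the graph on the far part is extremal again. -/
def StTR : Prop := ∀ (X : Type) [Fintype X] [DecidableEq X] (K : SimpleGraph X) (L : Finset X)
    (lev a : X → ℕ), Good K L lev a → Flex K L a → ∃ δ : ℝ, 0 < δ ∧ ∀ (W n₀ : ℕ),
    (∀ (V : Type) [Fintype V], n₀ ≤ card V → ∀ G : SimpleGraph V, Ext (HG K a W) G →
      ∃ τ : V → X, Str K L G τ ∧ open Classical in
        ∀ x, |(#(univ.filter (fun v => τ v = x)) : ℝ) - th a x * card V| ≤ δ * card V) →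
    ∃ n₁ : ℕ, ∀ (V : Type) [Fintype V], n₁ ≤ card V → ∀ (G : SimpleGraph V) (τ : V → X),
      Ext (HG K a W) G → Str K L G τ →
      (open Classical in ∀ x, |(#(univ.filter (fun v => τ v = x)) : ℝ) - th a x * card V|
        ≤ δ * card V) →
      Ext (HG K a W) (G.induce {v | τ v ∈ L})

/-- the main theorem for a good pattern. -/
def StMain : Prop := ∀ (X : Type) [Fintype X] [DecidableEq X] (K : SimpleGraph X) (L : Finset X)
    (lev a : X → ℕ), Good K L lev a → Flex K L a → ∃ W : ℕ, ∀ (m : ℕ), ∃ n₀ : ℕ, ∀ n ≥ n₀,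
    ∀ (G₀ : SimpleGraph (Fin m)) (φ : Fin n → Fin m), ¬ Ext (HG K a W) (G₀.comap φ)

/-- the instance -/
def StInst : Prop := ∃ (K : SimpleGraph (Fin 30)) (L : Finset (Fin 30)) (lev a : Fin 30 → ℕ),
  Good K L lev a ∧ Flex K L a

end H78D
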