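import Pool.Agent.H78.Dis.Defs

set_option autoImplicit false

/-! # Weighted AM-GM with integer exponents -/

open Finset Fintype

namespace H78D

/-- AM-GM with natural number weights. -/
lemma amgm {ι : Type*} (s : Finset ι) (k : ι → ℕ) (z : ι → ℝ) (hz : ∀ i ∈ s, 0 ≤ z i)
    (T : ℝ) (hT : ∑ i ∈ s, (k i : ℝ) * z i ≤ T * (∑ i ∈ s, k i : ℕ)) (hT0 : 0 ≤ T) :
    ∏ i ∈ s, z i ^ k i ≤ T ^ (∑ i ∈ s, k i) := by
  rcases Nat.eq_zero_or_pos (∑ i ∈ s, k i) with h0 | hpos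
  · rw [h0, pow_zero]
    have : ∀ i ∈ s, k i = 0 := by
      intro i hi
      exact (Finset.sum_eq_zero_iff.mp h0) i hi
    rw [Finset.prod_congr rfl (fun i hi => by rw [this i hi, pow_zero])]
    simp
  · have hK : (0 : ℝ) < ∑ i ∈ s, (k i : ℝ) := by exact_mod_cast hpos
    have key := Real.geom_mean_le_arith_mean s (fun i => (k i : ℝ)) z
      (fun i _ => Nat.cast_nonneg _) hK hz
    have h1 : ∏ i ∈ s, z i ^ ((k i : ℝ)) = ∏ i ∈ s, z i ^ k i :=
      Finset.prod_congr rfl (fun i _ => Real.rpow_natCast _ _)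
    rw [h1] at key
    have hP : 0 ≤ ∏ i ∈ s, z i ^ k i := Finset.prod_nonneg (fun i hi => pow_nonneg (hz i hi) _)
    have h2 : (∏ i ∈ s, z i ^ k i) ^ (∑ i ∈ s, (k i : ℝ))⁻¹ ≤ T := by
      refine key.trans ?_
      rw [div_le_iff₀ hK]
      push_cast at hT
      exact hT
    have h3 := Real.rpow_le_rpow (Real.rpow_nonneg hP _) h2 hK.le
    rw [← Real.rpow_mul hP, inv_mul_cancel₀ hK.ne', Real.rpow_one] at h3
    have h4 : T ^ (∑ i ∈ s, (k i : ℝ)) = T ^ (∑ i ∈ s, k i) := by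
      rw [← Real.rpow_natCast]; push_cast; rfl
    rw [h4] at h3
    exact h3

variable {X : Type} [Fintype X] [DecidableEq X]

lemma tot_pos (a : X → ℕ) (ha : ∀ x, 0 < a x) [Nonempty X] : 0 < tot a :=
  Finset.sum_pos (fun x _ => ha x) univ_nonempty

lemma th_pos (a : X → ℕ) (ha : ∀ x, 0 < a x) (x : X) : 0 < th a x := by
  have : Nonempty X := ⟨x⟩
  unfold th
  have h1 : (0 : ℝ) < a x := by exact_mod_cast ha x
  have h2 : (0 : ℝ) < tot a := by exact_mod_cast tot_pos a ha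
  positivity

lemma th_sum (a : X → ℕ) (ha : ∀ x, 0 < a x) [Nonempty X] : ∑ x, th a x = 1 := by
  unfold th
  rw [← Finset.sum_div]
  have h2 : (0 : ℝ) < tot a := by exact_mod_cast tot_pos a ha
  rw [div_eq_one_iff_eq h2.ne']
  unfold tot
  push_cast
  rfl

/-- the AM-GM inequality for the roles over `Q`. -/
lemma AG (a : X → ℕ) (ha : ∀ x, 0 < a x) (W : ℕ) (Q : Finset X) (n : ℝ) (hn : 0 < n)
    (f : X × Fin 3 → ℝ) (hf : ∀ r, 0 ≤ f r) (σ : ℝ) (hσ : 0 ≤ σ)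
    (hsum : ∑ r ∈ Q ×ˢ (univ : Finset (Fin 3)), f r ≤ 3 * n * σ) :
    ∏ r ∈ Q ×ˢ (univ : Finset (Fin 3)), f r ^ (W * a r.1) ≤
      (∏ r ∈ Q ×ˢ (univ : Finset (Fin 3)), (th a r.1 * n) ^ (W * a r.1)) *
        ((tot a : ℝ) / (∑ x ∈ Q, (a x : ℝ)) * σ) ^ (3 * (W * ∑ x ∈ Q, a x)) := by
  rcases Q.eq_empty_or_nonempty with rfl | hQ
  · simp
  obtain ⟨x₀, hx₀⟩ := hQ
  have : Nonempty X := ⟨x₀⟩
  have hA : (0 : ℝ) < tot a := by exact_mod_cast tot_pos a ha
  have hAQ : (0 : ℝ) < ∑ x ∈ Q, (a x : ℝ) :=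
    Finset.sum_pos (fun x _ => by exact_mod_cast ha x) ⟨x₀, hx₀⟩
  have hden : ∀ r : X × Fin 3, 0 < th a r.1 * n := fun r => mul_pos (th_pos a ha _) hn
  have hexp : ∑ r ∈ Q ×ˢ (univ : Finset (Fin 3)), W * a r.1 = 3 * (W * ∑ x ∈ Q, a x) := by
    rw [Finset.sum_product]
    simp only [sum_const, card_univ, Fintype.card_fin, smul_eq_mul]
    rw [Finset.mul_sum, Finset.mul_sum]
  have key := amgm (Q ×ˢ (univ : Finset (Fin 3))) (fun r => W * a r.1)
    (fun r => f r / (th a r.1 * n)) (fun r _ => div_nonneg (hf r) (hden r).le)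
    ((tot a : ℝ) / (∑ x ∈ Q, (a x : ℝ)) * σ) (by
      rw [hexp]
      have h1 : ∀ r ∈ Q ×ˢ (univ : Finset (Fin 3)), ((W * a r.1 : ℕ) : ℝ) * (f r / (th a r.1 * n))
          = (W * tot a / n) * f r := by
        intro r _
        have h2 : (a r.1 : ℝ) ≠ 0 := by exact_mod_cast (ha r.1).ne'
        unfold th
        push_cast
        field_simp
      rw [Finset.sum_congr rfl h1, ← Finset.mul_sum]
      push_cast
      calc (W * tot a / n : ℝ) * ∑ r ∈ Q ×ˢ (univ : Finset (Fin 3)), f r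
          ≤ (W * tot a / n : ℝ) * (3 * n * σ) := by
            apply mul_le_mul_of_nonneg_left hsum
            positivity
        _ = _ := by field_simp)
    (by positivity)
  rw [hexp] at key
  have h3 : ∏ r ∈ Q ×ˢ (univ : Finset (Fin 3)), f r ^ (W * a r.1) =
      (∏ r ∈ Q ×ˢ (univ : Finset (Fin 3)), (th a r.1 * n) ^ (W * a r.1)) *
      ∏ r ∈ Q ×ˢ (univ : Finset (Fin 3)), (f r / (th a r.1 * n)) ^ (W * a r.1) := by
    rw [← Finset.prod_mul_distrib]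
    refine Finset.prod_congr rfl (fun r _ => ?_)
    rw [← mul_pow, mul_div_cancel₀ _ (hden r).ne']
  rw [h3]
  exact mul_le_mul_of_nonneg_left key (Finset.prod_nonneg (fun r _ => pow_nonneg (hden r).le _))

end H78D
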