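import Pool.Agent.H78.Dis.AG
import Pool.Agent.H67.Blow.Clone

set_option autoImplicit false

/-!
# Lower bound and degrees in extremal graphs
-/

open Finset Fintype

namespace H87Dis

open H78D
open H67Blow (num injs mem_injs cl cl_of_ne cl_self pin2 noninj_card_le)

lemma cliqueFree_comap {V V' : Type*} (G : SimpleGraph V) (φ : V' → V) (k : ℕ)
    (hG : G.CliqueFree k) : (G.comap φ).CliqueFree k := by
  classical
  intro t ht
  rw [SimpleGraph.isNClique_iff] at ht
  refine hG (t.image φ) ?_
  rw [SimpleGraph.isNClique_iff]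
  refine ⟨?_, ?_⟩
  · rw [SimpleGraph.isClique_iff]
    intro x hx y hy hxy
    simp only [coe_image, Set.mem_image, mem_coe] at hx hy
    obtain ⟨a, ha, rfl⟩ := hx
    obtain ⟨b, hb, rfl⟩ := hy
    have h1 : (G.comap φ).Adj a b := ht.1 ha hb (fun h => hxy (h ▸ rfl))
    exact h1
  · rw [Finset.card_image_of_injOn, ht.2]
    intro a ha b hb hab
    by_contra hne
    have h1 : (G.comap φ).Adj a b := ht.1 ha hb hne
    exact G.ne_of_adj h1 hab

lemma free4 {V : Type*} {G : SimpleGraph V} (h : ∀ x y z w, G.Adj x y → G.Adj x z → G.Adj x w →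
    G.Adj y z → G.Adj y w → G.Adj z w → False) : G.CliqueFree 4 := by
  by_contra hc
  rw [SimpleGraph.not_cliqueFree_iff_top_isContained] at hc
  obtain ⟨f⟩ := hc
  have ad : ∀ i j : Fin 4, i ≠ j → G.Adj (f i) (f j) := fun i j hij => f.toHom.map_adj hij
  exact h (f 0) (f 1) (f 2) (f 3) (ad _ _ (by decide)) (ad _ _ (by decide)) (ad _ _ (by decide))
    (ad _ _ (by decide)) (ad _ _ (by decide)) (ad _ _ (by decide))

section clone

variable {V W : Type} [Fintype V] [Fintype W]

open Classical in
/-- copies hitting `x` -/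
noncomputable def hit (H : SimpleGraph W) (G : SimpleGraph V) (x : V) : Finset (W → V) :=
  (injs H G).filter (fun f => ∃ a, f a = x)

open Classical in
lemma clone_le (H : SimpleGraph W) (G : SimpleGraph V) (hG : Ext H G) (x z : V) (_ : x ≠ z) :
    #((hit H G z).filter (fun f => ¬ ∃ a, f a = x)) ≤ #(hit H G x) := by
  have hext := hG.2 (G.comap (cl x z)) (cliqueFree_comap _ _ _ hG.1)
  let A := (injs H G).filter (fun f => ¬ ∃ a, f a = x)
  let B := (hit H G z).filter (fun f => ¬ ∃ a, f a = x)
  let sw : (W → V) → (W → V) := fun f a => Equiv.swap z x (f a)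
  have hsw : Function.Injective sw := by
    intro f g h
    funext a
    have := congrFun h a
    exact (Equiv.swap z x).injective this
  have hsub : A ∪ B.image sw ⊆ injs H (G.comap (cl x z)) := by
    intro f hf
    rw [mem_union] at hf
    rcases hf with hf | hf
    · simp only [A, mem_filter, mem_injs, not_exists] at hf
      rw [mem_injs]
      refine ⟨hf.1.1, fun a b hab => ?_⟩
      rw [SimpleGraph.comap_adj, cl_of_ne (hf.2 a), cl_of_ne (hf.2 b)]
      exact hf.1.2 a b hab
    · rw [mem_image] at hf
      obtain ⟨g, hg, rfl⟩ := hf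
      simp only [B, hit, mem_filter, mem_injs, not_exists] at hg
      rw [mem_injs]
      refine ⟨fun a b h => hg.1.1.1 ((Equiv.swap z x).injective h), fun a b hab => ?_⟩
      have key : ∀ c, cl x z (sw g c) = g c := by
        intro c
        have h1 := hg.2 c
        by_cases h2 : g c = z
        · simp only [sw, h2, Equiv.swap_apply_left, cl_self]
        · simp only [sw, Equiv.swap_apply_of_ne_of_ne h2 h1]
          exact cl_of_ne h1
      rw [SimpleGraph.comap_adj, key a, key b]
      exact hg.1.1.2 a b hab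
  have hdisj : Disjoint A (B.image sw) := by
    rw [Finset.disjoint_left]
    intro f hf hf'
    rw [mem_image] at hf'
    obtain ⟨g, hg, rfl⟩ := hf'
    simp only [A, B, hit, mem_filter, not_exists] at hf hg
    obtain ⟨⟨_, a, ha⟩, _⟩ := hg
    exact hf.2 a (by simp [sw, ha])
  have h1 : #A + #B ≤ num H G := by
    calc #A + #B = #(A ∪ B.image sw) := by
          rw [Finset.card_union_of_disjoint hdisj, Finset.card_image_of_injective _ hsw]
      _ ≤ #(injs H (G.comap (cl x z))) := Finset.card_le_card hsub
      _ ≤ num H G := hext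
  have h2 : #(hit H G x) + #A = num H G := by
    unfold num hit
    exact Finset.card_filter_add_card_filter_not _
  change #B ≤ _
  omega

open Classical in
lemma hit_le [Nonempty V] (H : SimpleGraph W) (G : SimpleGraph V) (hG : Ext H G) (x z : V) :
    (#(hit H G z) : ℝ) ≤ #(hit H G x) +
      (card W : ℝ) ^ 2 * ((card V : ℝ) ^ (card W) / (card V : ℝ) ^ 2) := by
  by_cases hxz : x = z
  · subst hxz
    have : 0 ≤ (card W : ℝ) ^ 2 * ((card V : ℝ) ^ (card W) / (card V : ℝ) ^ 2) := by positivity
    linarith
  have h1 := clone_le H G hG x z hxz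
  have h2 : #((hit H G z).filter (fun f => ∃ a, f a = x)) +
      #((hit H G z).filter (fun f => ¬ ∃ a, f a = x)) = #(hit H G z) :=
    Finset.card_filter_add_card_filter_not _
  have h3 : (hit H G z).filter (fun f => ∃ a, f a = x) ⊆
      (univ.filter (fun p : W × W => p.1 ≠ p.2)).biUnion
        (fun p => univ.filter (fun f : W → V => f p.1 = z ∧ f p.2 = x)) := by
    intro f hf
    simp only [hit, mem_filter] at hf
    obtain ⟨⟨_, a, ha⟩, b, hb⟩ := hf
    simp only [mem_biUnion, mem_filter, mem_univ, true_and]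
    refine ⟨(a, b), ?_, ha, hb⟩
    intro hab
    have hab' : a = b := hab
    rw [hab', hb] at ha
    exact hxz ha
  have h4 : (#((hit H G z).filter (fun f => ∃ a, f a = x)) : ℝ) ≤
      ∑ p ∈ univ.filter (fun p : W × W => p.1 ≠ p.2),
        (#(univ.filter (fun f : W → V => f p.1 = z ∧ f p.2 = x)) : ℝ) := by
    exact_mod_cast (Finset.card_le_card h3).trans Finset.card_biUnion_le
  have h5 : (#((hit H G z).filter (fun f => ∃ a, f a = x)) : ℝ) ≤
      (card W : ℝ) ^ 2 * ((card V : ℝ) ^ (card W) / (card V : ℝ) ^ 2) := by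
    refine h4.trans ((Finset.sum_le_sum (fun p hp => pin2 p.1 p.2 (by simpa using hp) {z} {x} _
      (fun f hf => by simpa using hf))).trans ?_)
    rw [Finset.sum_const, nsmul_eq_mul]
    simp only [card_singleton, Nat.cast_one, one_mul]
    apply mul_le_mul_of_nonneg_right _ (by positivity)
    have : #(univ.filter (fun p : W × W => p.1 ≠ p.2)) ≤ card W ^ 2 := by
      refine (Finset.card_filter_le _ _).trans ?_
      rw [Finset.card_univ, Fintype.card_prod]; nlinarith
    exact_mod_cast this
  have h6 : (#(hit H G z) : ℝ) =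
      #((hit H G z).filter (fun f => ∃ a, f a = x)) +
      #((hit H G z).filter (fun f => ¬ ∃ a, f a = x)) := by
    exact_mod_cast h2.symm
  have h7 : (#((hit H G z).filter (fun f => ¬ ∃ a, f a = x)) : ℝ) ≤
      #(hit H G x) := by exact_mod_cast h1
  linarith

open Classical in
lemma sum_hit (H : SimpleGraph W) (G : SimpleGraph V) :
    ∑ z : V, #(hit H G z) = card W * num H G := by
  have h2 : ∑ z : V, #(hit H G z) =
      ∑ f ∈ injs H G, #(univ.filter (fun z => ∃ a, f a = z)) := by
    simp only [hit, Finset.card_filter]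
    rw [Finset.sum_comm]
  rw [h2]
  have h3 : ∀ f ∈ injs H G, #(univ.filter (fun z => ∃ a, f a = z)) = card W := by
    intro f hf
    rw [mem_injs] at hf
    have : univ.filter (fun z => ∃ a, f a = z) = univ.image f := by
      ext z; simp
    rw [this, Finset.card_image_of_injective _ hf.1, Finset.card_univ]
  rw [Finset.sum_congr rfl h3, Finset.sum_const, smul_eq_mul]
  unfold num
  ring

/-- each vertex is hit often in an extremal graph -/
lemma hit_ge [Nonempty V] (H : SimpleGraph W) (G : SimpleGraph V) (hG : Ext H G) (x : V) :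
    (card W : ℝ) * num H G ≤ card V * #(hit H G x) +
      (card W : ℝ) ^ 2 * ((card V : ℝ) ^ (card W) / (card V : ℝ)) := by
  have hn : (0 : ℝ) < card V := by positivity
  have h1 : (∑ z : V, (#(hit H G z) : ℝ)) = (card W : ℝ) * num H G := by
    exact_mod_cast sum_hit H G
  rw [← h1]
  refine (Finset.sum_le_sum (fun z _ => hit_le H G hG x z)).trans ?_
  rw [Finset.sum_const, nsmul_eq_mul, Finset.card_univ]
  apply le_of_eq
  field_simp

end clone

lemma exists_fib {V X : Type*} [Fintype V] [Fintype X] [DecidableEq X] [Nonempty X] (c : X → ℕ)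
    (h : ∑ x, c x ≤ card V) :
    ∃ φ : V → X, ∀ x, c x ≤ #(univ.filter (fun v => φ v = x)) := by
  classical
  have h1 : card (Σ x : X, Fin (c x)) ≤ card V := by
    rw [Fintype.card_sigma]
    simpa using h
  obtain ⟨e⟩ := Function.Embedding.nonempty_of_card_le h1
  let φ : V → X := fun v => if h : ∃ p, e p = v then (Classical.choose h).1 else Classical.arbitrary X
  have hφ : ∀ p, φ (e p) = p.1 := by
    intro p
    have hp : ∃ p', e p' = e p := ⟨p, rfl⟩
    have h2 : Classical.choose hp = p := e.injective (Classical.choose_spec hp)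
    simp only [φ, dif_pos hp, h2]
  refine ⟨φ, fun x => ?_⟩
  have h3 : (univ : Finset (Fin (c x))).image (fun i => e ⟨x, i⟩) ⊆
      univ.filter (fun v => φ v = x) := by
    intro v hv
    rw [mem_image] at hv
    obtain ⟨i, _, rfl⟩ := hv
    simp only [mem_filter, mem_univ, true_and]
    exact hφ _
  have h4 := Finset.card_le_card h3
  rw [Finset.card_image_of_injective _ (fun i j hij => by
    have := e.injective hij
    simpa using this), Finset.card_univ, Fintype.card_fin] at h4
  exact h4

section main

variable {X : Type} [Fintype X] [DecidableEq X]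

omit [DecidableEq X] in
lemma prod_HV (a : X → ℕ) (W : ℕ) (g : X → ℝ) :
    ∏ p : HV a W, g p.1.1 = ∏ x : X, g x ^ (3 * (W * a x + 3)) := by
  rw [Fintype.prod_sigma, Fintype.prod_prod_type]
  refine Finset.prod_congr rfl fun x _ => ?_
  simp only [Finset.prod_const, Finset.card_univ, Fintype.card_sum, Fintype.card_fin]
  rw [← pow_mul]
  congr 1
  ring

open Classical in
lemma num_ge {V : Type} [Fintype V] [Nonempty V] (K : SimpleGraph X) (a : X → ℕ) (W : ℕ)
    (φ : V → X) :
    ∏ p : HV a W, (#(univ.filter (fun v => φ v = p.1.1)) : ℝ) ≤ num (HG K a W) (K.comap φ) +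
      (card (HV a W) : ℝ) ^ 2 * ((card V : ℝ) ^ (card (HV a W)) / card V) := by
  have h1 : ∏ p : HV a W, (#(univ.filter (fun v => φ v = p.1.1)) : ℝ) =
      #(Fintype.piFinset (fun p : HV a W => univ.filter (fun v => φ v = p.1.1))) := by
    rw [Fintype.card_piFinset]
    push_cast
    rfl
  have h2 : Fintype.piFinset (fun p : HV a W => univ.filter (fun v => φ v = p.1.1)) ⊆
      injs (HG K a W) (K.comap φ) ∪ univ.filter (fun f : HV a W → V => ¬ Function.Injective f) := by
    intro f hf
    rw [Fintype.mem_piFinset] at hf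
    rw [mem_union]
    by_cases hi : Function.Injective f
    · left
      rw [mem_injs]
      refine ⟨hi, fun p q hpq => ?_⟩
      have e1 : φ (f p) = p.1.1 := by simpa using hf p
      have e2 : φ (f q) = q.1.1 := by simpa using hf q
      rw [SimpleGraph.comap_adj, e1, e2]
      exact hpq.1
    · right
      simpa using hi
  have h3 : (#(Fintype.piFinset (fun p : HV a W => univ.filter (fun v => φ v = p.1.1))) : ℝ) ≤
      #(injs (HG K a W) (K.comap φ)) +
        #(univ.filter (fun f : HV a W → V => ¬ Function.Injective f)) := by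
    exact_mod_cast (Finset.card_le_card h2).trans (Finset.card_union_le _ _)
  have h4 : (#(univ.filter (fun f : HV a W → V => ¬ Function.Injective f)) : ℝ) ≤
      (card (HV a W) : ℝ) ^ 2 * ((card V : ℝ) ^ (card (HV a W)) / card V) := by
    refine (le_of_eq ?_).trans (noninj_card_le (V := V) (W := HV a W))
    apply congrArg (Nat.cast : ℕ → ℝ)
    apply congrArg Finset.card
    ext f
    simp only [Finset.mem_filter, Finset.mem_univ, true_and]
  rw [h1]
  unfold num
  linarith

/-- the main term -/
noncomputable def PP (a : X → ℕ) (W : ℕ) (n : ℝ) : ℝ := ∏ p : HV a W, (th a p.1.1 * n)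

lemma th_le_one (a : X → ℕ) (ha : ∀ x, 0 < a x) (x : X) : th a x ≤ 1 := by
  have : Nonempty X := ⟨x⟩
  rw [← th_sum a ha]
  exact Finset.single_le_sum (f := fun x => th a x) (fun y _ => (th_pos a ha y).le)
    (Finset.mem_univ x)

omit [DecidableEq X] in
lemma PP_eq (a : X → ℕ) (W : ℕ) (n : ℝ) :
    PP a W n = (∏ p : HV a W, th a p.1.1) * n ^ (card (HV a W)) := by
  unfold PP
  rw [Finset.prod_mul_distrib, Finset.prod_const, Finset.card_univ]

lemma PP_le (a : X → ℕ) (ha : ∀ x, 0 < a x) (W : ℕ) (n : ℝ) (hn : 0 < n) :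
    PP a W n ≤ n ^ (card (HV a W)) := by
  rw [PP_eq]
  have h1 : ∏ p : HV a W, th a p.1.1 ≤ 1 :=
    Finset.prod_le_one (fun p _ => (th_pos a ha _).le) (fun p _ => th_le_one a ha _)
  have h2 : 0 < n ^ (card (HV a W)) := by positivity
  nlinarith

/-- lower bound -/
lemma low {V : Type} [Fintype V] [Nonempty V] [Nonempty X] (K : SimpleGraph X) (hK : K.CliqueFree 4)
    (a : X → ℕ) (ha : ∀ x, 0 < a x) (W : ℕ) (G : SimpleGraph V) (hG : Ext (HG K a W) G)
    (hn : (tot a : ℝ) ≤ card V) :
    PP a W (card V) ≤ num (HG K a W) G +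
      ((card (HV a W) : ℝ) ^ 2 + card (HV a W) * tot a) *
        ((card V : ℝ) ^ (card (HV a W)) / card V) := by
  classical
  have hn0 : (0 : ℝ) < card V := by positivity
  have htot : 0 < tot a := tot_pos a ha
  have htot' : (0 : ℝ) < tot a := by exact_mod_cast htot
  set q : ℕ := card V / tot a with hq
  obtain ⟨φ, hφ⟩ := exists_fib (V := V) (fun x => a x * q) (by
    rw [← Finset.sum_mul]
    change tot a * q ≤ card V
    rw [hq]
    exact Nat.mul_div_le _ _)
  have h1 := num_ge K a W φ
  have h2 : (num (HG K a W) (K.comap φ) : ℝ) ≤ num (HG K a W) G := by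
    exact_mod_cast hG.2 _ (cliqueFree_comap _ _ _ hK)
  -- size of the fibres
  have hq1 : (card V : ℝ) / tot a - 1 ≤ q := by
    have h3 : card V < (q + 1) * tot a := by
      rw [hq, add_mul, one_mul]
      have := Nat.div_add_mod (card V) (tot a)
      have h4 := Nat.mod_lt (card V) htot
      have h5 : tot a * (card V / tot a) = card V / tot a * tot a := Nat.mul_comm _ _
      omega
    have h4 : (card V : ℝ) < (q + 1) * tot a := by exact_mod_cast h3
    have h5 : (card V : ℝ) / tot a < q + 1 := by
      rw [div_lt_iff₀ htot']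
      exact h4
    linarith
  set s : ℝ := 1 - tot a / card V with hs
  have hs0 : 0 ≤ s := by
    rw [hs, sub_nonneg, div_le_one hn0]
    exact hn
  have hfib : ∀ x, s * (th a x * card V) ≤ #(univ.filter (fun v => φ v = x)) := by
    intro x
    have h3 : ((a x * q : ℕ) : ℝ) ≤ #(univ.filter (fun v => φ v = x)) := by
      exact_mod_cast hφ x
    refine le_trans ?_ h3
    push_cast
    have h4 : s * (th a x * card V) = (a x : ℝ) * ((card V : ℝ) / tot a - 1) := by
      rw [hs]
      unfold th
      field_simp
    rw [h4]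
    exact mul_le_mul_of_nonneg_left hq1 (by positivity)
  have h3 : s ^ (card (HV a W)) * PP a W (card V) ≤
      ∏ p : HV a W, (#(univ.filter (fun v => φ v = p.1.1)) : ℝ) := by
    have h4 : s ^ (card (HV a W)) * PP a W (card V) = ∏ p : HV a W, (s * (th a p.1.1 * card V)) := by
      unfold PP
      conv_rhs => rw [Finset.prod_mul_distrib, Finset.prod_const, Finset.card_univ]
    rw [h4]
    apply Finset.prod_le_prod
    · intro p _
      exact mul_nonneg hs0 (mul_nonneg (th_pos a ha _).le hn0.le)
    · intro p _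
      exact hfib _
  have h5 : 1 - (card (HV a W) : ℝ) * (tot a / card V) ≤ s ^ (card (HV a W)) := by
    have := one_add_mul_le_pow (a := -((tot a : ℝ) / card V)) (by linarith [hs0]) (card (HV a W))
    have e : 1 + -((tot a : ℝ) / card V) = s := by rw [hs]; ring
    rw [e] at this
    linarith
  have hPP0 : 0 < PP a W (card V) := by
    unfold PP
    exact Finset.prod_pos (fun p _ => mul_pos (th_pos a ha _) hn0)
  have h6 : (1 - (card (HV a W) : ℝ) * (tot a / card V)) * PP a W (card V) ≤
      ∏ p : HV a W, (#(univ.filter (fun v => φ v = p.1.1)) : ℝ) :=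
    (mul_le_mul_of_nonneg_right h5 hPP0.le).trans h3
  have h7 : (card (HV a W) : ℝ) * (tot a / card V) * PP a W (card V) ≤
      card (HV a W) * tot a * ((card V : ℝ) ^ (card (HV a W)) / card V) := by
    have h8 := PP_le a ha W (card V) hn0
    have h9 : (card (HV a W) : ℝ) * tot a * ((card V : ℝ) ^ (card (HV a W)) / card V) =
      (card (HV a W) : ℝ) * (tot a / card V) * (card V : ℝ) ^ (card (HV a W)) := by
      field_simp
    rw [h9]
    exact mul_le_mul_of_nonneg_left h8 (by positivity)
  have h10 : PP a W (card V) = (1 - (card (HV a W) : ℝ) * (tot a / card V)) * PP a W (card V) +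
      (card (HV a W) : ℝ) * (tot a / card V) * PP a W (card V) := by ring
  rw [h10, add_mul]
  linarith

open Classical in
/-- the swap of two vertices of the same role -/
lemma swap_le {V : Type} [Fintype V] (K : SimpleGraph X) (a : X → ℕ) (W : ℕ) (G : SimpleGraph V)
    (p q : HV a W) (hpq : p.1 = q.1) (v : V) :
    #((injs (HG K a W) G).filter (fun f => f p = v)) ≤
      #((injs (HG K a W) G).filter (fun f => f q = v)) := by
  apply Finset.card_le_card_of_injOn (fun f => f ∘ Equiv.swap p q)
  · intro f hf
    simp only [coe_filter, Set.mem_ofPred_eq, mem_injs] at hf ⊢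
    refine ⟨⟨hf.1.1.comp (Equiv.swap p q).injective, fun b c hbc => ?_⟩, ?_⟩
    · have hrole : ∀ b : HV a W, (Equiv.swap p q b).1 = b.1 := by
        intro b
        by_cases h1 : b = p
        · subst h1; rw [Equiv.swap_apply_left, hpq]
        · by_cases h2 : b = q
          · subst h2; rw [Equiv.swap_apply_right, hpq]
          · rw [Equiv.swap_apply_of_ne_of_ne h1 h2]
      apply hf.1.2
      rw [HG_adj] at hbc ⊢
      rw [hrole b, hrole c]
      exact hbc
    · simp [hf.2]
  · intro f _ g _ h
    funext b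
    have := congrFun h ((Equiv.swap p q).symm b)
    simpa using this

open Classical in
theorem stDeg : StDeg := by
  intro X _ _ K L lev a hg W
  obtain ⟨x₁, _⟩ := hg.notL
  have : Nonempty X := ⟨x₁⟩
  have hK : K.CliqueFree 4 := free4 hg.k4
  set h : ℕ := card (HV a W) with hh
  set Θ : ℝ := ∏ p : HV a W, th a p.1.1 with hΘ
  have hΘ0 : 0 < Θ := Finset.prod_pos (fun p _ => th_pos a hg.apos _)
  set C : ℝ := (h : ℝ) ^ 2 + h * tot a + h with hC
  obtain ⟨n₀, hn₀⟩ := exists_nat_gt (2 * C / Θ)
  refine ⟨max n₀ (tot a + 1), ?_⟩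
  intro V _ hV G hG v
  have hVne : Nonempty V := ⟨v⟩
  have hn0 : (0 : ℝ) < card V := by positivity
  have hn1 : (n₀ : ℝ) ≤ card V := by exact_mod_cast (le_max_left _ _).trans hV
  have hn2 : ((tot a : ℕ) : ℝ) ≤ card V := by
    have : tot a ≤ card V := (Nat.le_succ _).trans ((le_max_right _ _).trans hV)
    exact_mod_cast this
  have hlow := low K hK a hg.apos W G hG hn2
  have hhit := hit_ge (HG K a W) G hG v
  have hP : PP a W (card V) = ∏ x : X, (th a x * card V) ^ (3 * (W * a x + 3)) :=
    prod_HV a W (fun x => th a x * card V)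
  rw [← hP]
  have hN : (1 : ℝ) ≤ card X := by exact_mod_cast Fintype.card_pos
  have hh0 : 0 < h := by
    rw [hh]
    exact Fintype.card_pos_iff.mpr ⟨⟨(x₁, 0), Sum.inr 0⟩⟩
  have hh1 : (0 : ℝ) < h := by exact_mod_cast hh0
  set E : ℝ := (card V : ℝ) ^ h / card V with hE
  have hE0 : 0 < E := by positivity
  have hPE : PP a W (card V) = Θ * card V * E := by
    rw [PP_eq, ← hΘ, ← hh, hE]
    field_simp
  by_contra hcon
  push Not at hcon
  set b : ℝ := 1 / (4 * (3 * card X : ℝ)) * PP a W (card V) with hb
  have hPP0 : 0 < PP a W (card V) := by rw [hPE]; positivity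
  have hb1 : b ≤ PP a W (card V) / 12 := by
    rw [hb]
    have : 1 / (4 * (3 * card X : ℝ)) ≤ 1 / 12 := by
      apply one_div_le_one_div_of_le (by norm_num)
      linarith
    have h3 := mul_le_mul_of_nonneg_right this hPP0.le
    linarith
  -- the number of copies through v
  have h1 : (#(hit (HG K a W) G v) : ℝ) * card V ≤ h * b := by
    have h2 : hit (HG K a W) G v ⊆ (univ : Finset (HV a W)).biUnion
        (fun p => (injs (HG K a W) G).filter (fun f => f p = v)) := by
      intro f hf
      simp only [hit, mem_filter] at hf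
      obtain ⟨hf, p, hp⟩ := hf
      simp only [mem_biUnion, mem_filter, mem_univ, true_and]
      exact ⟨p, hf, hp⟩
    have h3 : (#(hit (HG K a W) G v) : ℝ) ≤
        ∑ p : HV a W, (#((injs (HG K a W) G).filter (fun f => f p = v)) : ℝ) := by
      exact_mod_cast (Finset.card_le_card h2).trans Finset.card_biUnion_le
    have h4 : ∀ p : HV a W, (#((injs (HG K a W) G).filter (fun f => f p = v)) : ℝ) * card V ≤ b := by
      intro p
      have h5 : (#((injs (HG K a W) G).filter (fun f => f p = v)) : ℝ) ≤
          #((injs (HG K a W) G).filter (fun f => f ⟨p.1, Sum.inr 2⟩ = v)) := by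
        exact_mod_cast swap_le K a W G p ⟨p.1, Sum.inr 2⟩ rfl v
      exact (mul_le_mul_of_nonneg_right h5 hn0.le).trans (hcon p.1).le
    calc (#(hit (HG K a W) G v) : ℝ) * card V
        ≤ (∑ p : HV a W, (#((injs (HG K a W) G).filter (fun f => f p = v)) : ℝ)) * card V :=
          mul_le_mul_of_nonneg_right h3 hn0.le
      _ = ∑ p : HV a W, (#((injs (HG K a W) G).filter (fun f => f p = v)) : ℝ) * card V := by
          rw [Finset.sum_mul]
      _ ≤ ∑ _p : HV a W, b := Finset.sum_le_sum (fun p _ => h4 p)
      _ = h * b := by rw [Finset.sum_const, nsmul_eq_mul, Finset.card_univ]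
  -- combine
  have h2 : (h : ℝ) * num (HG K a W) G ≤ h * (b + h * E) := by
    have : (h : ℝ) * (b + h * E) = h * b + (h : ℝ) ^ 2 * E := by ring
    rw [this]
    linarith
  have h3 : (num (HG K a W) G : ℝ) ≤ b + h * E := le_of_mul_le_mul_left h2 hh1
  have h4 : PP a W (card V) ≤ PP a W (card V) / 12 + C * E := by
    rw [hC]
    have : ((h : ℝ) ^ 2 + h * tot a + h) * E = ((h : ℝ) ^ 2 + h * tot a) * E + h * E := by ring
    rw [this]
    linarith
  have h5 : 2 * C < Θ * card V := by
    have h6 : 2 * C / Θ < card V := hn₀.trans_le hn1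
    rw [div_lt_iff₀ hΘ0] at h6
    linarith
  have h6 : 2 * (C * E) < PP a W (card V) := by
    rw [hPE]
    have := mul_lt_mul_of_pos_right h5 hE0
    linarith
  linarith

end main

end H87Dis
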