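import Pool.Agent.H78.Dis.Types

set_option autoImplicit false

/-! # Module TL : the product bound -/

open Finset Fintype

namespace H78D

variable {X : Type} [Fintype X] [DecidableEq X] {V : Type} [Fintype V]
variable {K : SimpleGraph X} {L : Finset X} {lev a : X → ℕ}
variable {G : SimpleGraph V} {g₁ g₂ : X × Fin 3 → V} {B : Finset (X × Fin 3)}
variable {r₀ : X × Fin 3} {v : V}

lemma sum_Xset_le (hK : Good K L lev a) (hG : G.CliqueFree 4) (hv : Valid K G g₁ g₂ ∅) :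
    ∑ r : X × Fin 3, #(Xset K G g₁ g₂ ∅ r₀ v r) ≤ 3 * card V := by
  have h1 : ∑ r : X × Fin 3, #(Xset K G g₁ g₂ ∅ r₀ v r) =
      ∑ r ∈ (univ : Finset X) ×ˢ (univ : Finset (Fin 3)), #(Xset K G g₁ g₂ ∅ r₀ v r) := by
    rw [Finset.univ_product_univ]
  rw [h1, sum_typ]
  calc ∑ u : V, #(typ K G g₁ g₂ ∅ r₀ v univ u) ≤ ∑ _u : V, 3 :=
        Finset.sum_le_sum (fun u _ => typ_card hK hG hv univ (by simp) u)
    _ = 3 * card V := by rw [Finset.sum_const, Finset.card_univ]; ring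

/-- the level set of `x₀`. -/
def QQ (lev : X → ℕ) (x₀ : X) : Finset X := univ.filter (fun x => lev x ≤ lev x₀)

lemma sum_Xset_B (hK : Good K L lev a) (hG : G.CliqueFree 4) (hv : Valid K G g₁ g₂ B)
    (r : X × Fin 3) (hr : r ∈ B) (hmin : ∀ s ∈ B, lev r.1 ≤ lev s.1) :
    ∑ s ∈ QQ lev r.1 ×ˢ (univ : Finset (Fin 3)), #(Xset K G g₁ g₂ B r₀ v s) +
      #(Xset K G g₁ g₂ B r₀ v r) ≤ 3 * card V := by
  classical
  have hQ : ∀ s ∈ B, ∀ x ∈ QQ lev r.1, lev x ≤ lev s.1 := by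
    intro s hs x hx
    simp only [QQ, mem_filter, mem_univ, true_and] at hx
    exact hx.trans (hmin s hs)
  have h2 : #(Xset K G g₁ g₂ B r₀ v r) = ∑ u : V, if u ∈ Xset K G g₁ g₂ B r₀ v r then 1 else 0 := by
    simp
  rw [sum_typ, h2, ← Finset.sum_add_distrib]
  calc ∑ u : V, (#(typ K G g₁ g₂ B r₀ v (QQ lev r.1) u) +
        if u ∈ Xset K G g₁ g₂ B r₀ v r then 1 else 0) ≤ ∑ _u : V, 3 := by
        apply Finset.sum_le_sum
        intro u _
        split_ifs with h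
        · have := typ_card_B hK hG hv (QQ lev r.1) hQ u r hr (r₀ := r₀) (v := v)
            (mem_typ.mpr ⟨by simp [QQ], h⟩)
          omega
        · have := typ_card hK hG hv (QQ lev r.1) hQ u (r₀ := r₀) (v := v)
          omega
    _ = 3 * card V := by rw [Finset.sum_const, Finset.card_univ]; ring

lemma prod_bound_empty (hK : Good K L lev a) (hG : G.CliqueFree 4) (hv : Valid K G g₁ g₂ ∅)
    (W : ℕ) :
    ∏ r : X × Fin 3, (#(Xset K G g₁ g₂ ∅ r₀ v r) : ℝ) ^ (W * a r.1) ≤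
      ∏ r : X × Fin 3, (th a r.1 * card V) ^ (W * a r.1) := by
  have hn : (0 : ℝ) < card V := by
    have : Nonempty V := ⟨v⟩
    exact_mod_cast Fintype.card_pos
  have : Nonempty X := ⟨r₀.1⟩
  have hA : (0 : ℝ) < tot a := by exact_mod_cast tot_pos a hK.apos
  have key := AG a hK.apos W univ (card V) hn (fun r => (#(Xset K G g₁ g₂ ∅ r₀ v r) : ℝ))
    (fun r => Nat.cast_nonneg _) 1 zero_le_one (by
      rw [Finset.univ_product_univ, mul_one]
      exact_mod_cast sum_Xset_le hK hG hv)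
  rw [Finset.univ_product_univ] at key
  have h1 : (tot a : ℝ) / (∑ x : X, (a x : ℝ)) * 1 = 1 := by
    rw [mul_one]
    have : (∑ x : X, (a x : ℝ)) = (tot a : ℝ) := by unfold tot; push_cast; rfl
    rw [this, div_self hA.ne']
  rw [h1, one_pow, mul_one] at key
  exact key

/-- the factor lost if a role `r` of level `lev r.1` is bad. -/
lemma factor_le (hK : Good K L lev a) (x₀ : X) :
    (2 : ℝ) ^ (-(a x₀ : ℝ)) * ((tot a : ℝ) / (∑ x ∈ QQ lev x₀, (a x : ℝ))) ^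
        (3 * ∑ x ∈ QQ lev x₀, a x) *
      ∏ x ∈ univ.filter (fun x => lev x₀ < lev x), ((tot a : ℝ) / a x) ^ (3 * a x) ≤
      (2 : ℝ) ^ (-(1 : ℝ) / 2) := by
  have : Nonempty X := ⟨x₀⟩
  have hA : (0 : ℝ) < tot a := by exact_mod_cast tot_pos a hK.apos
  have hmem : x₀ ∈ QQ lev x₀ := by simp [QQ]
  have hAQ : (0 : ℝ) < ∑ x ∈ QQ lev x₀, (a x : ℝ) :=
    Finset.sum_pos (fun x _ => by exact_mod_cast hK.apos x) ⟨x₀, hmem⟩
  have hax : ∀ x, (0 : ℝ) < a x := fun x => by exact_mod_cast hK.apos x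
  have hpos : 0 < (2 : ℝ) ^ (-(a x₀ : ℝ)) * ((tot a : ℝ) / (∑ x ∈ QQ lev x₀, (a x : ℝ))) ^
        (3 * ∑ x ∈ QQ lev x₀, a x) *
      ∏ x ∈ univ.filter (fun x => lev x₀ < lev x), ((tot a : ℝ) / a x) ^ (3 * a x) := by
    refine mul_pos (mul_pos (by positivity) (by positivity)) ?_
    exact Finset.prod_pos (fun x _ => pow_pos (div_pos hA (hax x)) _)
  rw [← Real.log_le_log_iff hpos (by positivity)]
  rw [Real.log_mul (by positivity) (Finset.prod_ne_zero_iff.mpr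
      (fun x _ => (pow_pos (div_pos hA (hax x)) _).ne')),
    Real.log_mul (by positivity) (by positivity), Real.log_rpow (by norm_num),
    Real.log_rpow (by norm_num), Real.log_pow, Real.log_prod (fun x _ => (pow_pos (div_pos hA (hax x)) _).ne')]
  have h1 : ∀ x ∈ univ.filter (fun x => lev x₀ < lev x),
      Real.log (((tot a : ℝ) / a x) ^ (3 * a x)) = 3 * ((a x : ℝ) * Real.log (tot a / a x)) := by
    intro x _
    rw [Real.log_pow]; push_cast; ring
  rw [Finset.sum_congr rfl h1, ← Finset.mul_sum]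
  have h2 := hK.hn x₀
  have h3 : (1 : ℝ) ≤ a x₀ := by exact_mod_cast hK.apos x₀
  have h4 : (0 : ℝ) < Real.log 2 := Real.log_pos (by norm_num)
  have e : (∑ x ∈ univ.filter (fun x => lev x ≤ lev x₀), (a x : ℝ)) = ∑ x ∈ QQ lev x₀, (a x : ℝ) := rfl
  rw [e] at h2
  push_cast
  nlinarith

lemma prod_split (f : X × Fin 3 → ℝ) (x₀ : X) (lev : X → ℕ) :
    ∏ r : X × Fin 3, f r = (∏ r ∈ QQ lev x₀ ×ˢ (univ : Finset (Fin 3)), f r) *
      ∏ x ∈ univ.filter (fun x => lev x₀ < lev x), ∏ l : Fin 3, f (x, l) := by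
  have h1 : ∏ r : X × Fin 3, f r = ∏ x : X, ∏ l : Fin 3, f (x, l) := by
    rw [← Finset.univ_product_univ, Finset.prod_product]
  rw [h1, Finset.prod_product]
  have h2 : univ.filter (fun x => lev x₀ < lev x) = univ.filter (fun x => ¬ lev x ≤ lev x₀) := by
    apply Finset.filter_congr; intro x _; exact not_le.symm
  rw [h2]
  unfold QQ
  exact (Finset.prod_filter_mul_prod_filter_not univ (fun x => lev x ≤ lev x₀) _).symm

lemma prod_bound_bad (hK : Good K L lev a) (hG : G.CliqueFree 4) (hv : Valid K G g₁ g₂ B)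
    (hB : B.Nonempty) (W : ℕ) :
    ∏ r : X × Fin 3, (#(Xset K G g₁ g₂ B r₀ v r) : ℝ) ^ (W * a r.1) ≤
      (∏ r : X × Fin 3, (th a r.1 * card V) ^ (W * a r.1)) * (2 : ℝ) ^ (-(W : ℝ) / 2) := by
  have hn : (0 : ℝ) < card V := by
    have : Nonempty V := ⟨v⟩
    exact_mod_cast Fintype.card_pos
  have : Nonempty X := ⟨r₀.1⟩
  have hA : (0 : ℝ) < tot a := by exact_mod_cast tot_pos a hK.apos
  have hax : ∀ x, (0 : ℝ) < a x := fun x => by exact_mod_cast hK.apos x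
  obtain ⟨r, hr, hmin⟩ := Finset.exists_min_image B (fun s => lev s.1) hB
  set x₀ := r.1 with hx₀
  have hmem : x₀ ∈ QQ lev x₀ := by simp [QQ]
  have hAQ : (0 : ℝ) < ∑ x ∈ QQ lev x₀, (a x : ℝ) :=
    Finset.sum_pos (fun x _ => hax x) ⟨x₀, hmem⟩
  have hrmem : r ∈ QQ lev x₀ ×ˢ (univ : Finset (Fin 3)) := by
    rw [Finset.mem_product]; exact ⟨hmem, Finset.mem_univ _⟩
  have hsum := sum_Xset_B hK hG hv r hr hmin (r₀ := r₀) (v := v)
  have key := AG a hK.apos W (QQ lev x₀) (card V) hn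
    (fun s => (#(Xset K G g₁ g₂ B r₀ v s) : ℝ) * (if s = r then 2 else 1))
    (fun s => by positivity) 1 zero_le_one (by
      have h1 : ∑ s ∈ QQ lev x₀ ×ˢ (univ : Finset (Fin 3)),
          (#(Xset K G g₁ g₂ B r₀ v s) : ℝ) * (if s = r then 2 else 1) =
          ∑ s ∈ QQ lev x₀ ×ˢ (univ : Finset (Fin 3)), (#(Xset K G g₁ g₂ B r₀ v s) : ℝ) +
            (#(Xset K G g₁ g₂ B r₀ v r) : ℝ) := by
        have h2 : (#(Xset K G g₁ g₂ B r₀ v r) : ℝ) = ∑ s ∈ QQ lev x₀ ×ˢ (univ : Finset (Fin 3)),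
            if s = r then (#(Xset K G g₁ g₂ B r₀ v s) : ℝ) else 0 := by
          rw [Finset.sum_ite_eq' _ r, if_pos hrmem]
        rw [h2, ← Finset.sum_add_distrib]
        apply Finset.sum_congr rfl
        intro s _
        split_ifs <;> ring
      rw [h1, mul_one]
      exact_mod_cast hsum)
  -- left side
  have hleft : ∏ s ∈ QQ lev x₀ ×ˢ (univ : Finset (Fin 3)),
      ((#(Xset K G g₁ g₂ B r₀ v s) : ℝ) * (if s = r then 2 else 1)) ^ (W * a s.1) =
      (∏ s ∈ QQ lev x₀ ×ˢ (univ : Finset (Fin 3)), (#(Xset K G g₁ g₂ B r₀ v s) : ℝ) ^ (W * a s.1)) *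
        (2 : ℝ) ^ (W * a x₀) := by
    have h2 : (2 : ℝ) ^ (W * a x₀) = ∏ s ∈ QQ lev x₀ ×ˢ (univ : Finset (Fin 3)),
        if s = r then (2 : ℝ) ^ (W * a s.1) else 1 := by
      rw [Finset.prod_ite_eq' _ r, if_pos hrmem]
    rw [h2, ← Finset.prod_mul_distrib]
    apply Finset.prod_congr rfl
    intro s _
    rw [mul_pow]
    split_ifs <;> simp
  rw [hleft] at key
  -- the part over Q
  have hQ : ∏ s ∈ QQ lev x₀ ×ˢ (univ : Finset (Fin 3)), (#(Xset K G g₁ g₂ B r₀ v s) : ℝ) ^ (W * a s.1)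
      ≤ (∏ s ∈ QQ lev x₀ ×ˢ (univ : Finset (Fin 3)), (th a s.1 * card V) ^ (W * a s.1)) *
        ((2 : ℝ) ^ (-(a x₀ : ℝ)) * ((tot a : ℝ) / (∑ x ∈ QQ lev x₀, (a x : ℝ))) ^
        (3 * ∑ x ∈ QQ lev x₀, a x)) ^ W := by
    have h2 : (0 : ℝ) < 2 ^ (W * a x₀) := by positivity
    rw [mul_pow, ← pow_mul, mul_comm (3 * ∑ x ∈ QQ lev x₀, a x) W]
    have h3 : ((2 : ℝ) ^ (-(a x₀ : ℝ))) ^ W = ((2 : ℝ) ^ (W * a x₀))⁻¹ := by
      rw [Real.rpow_neg (by norm_num), Real.rpow_natCast, inv_pow, ← pow_mul, mul_comm]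
    rw [h3]
    have h4 : W * (3 * ∑ x ∈ QQ lev x₀, a x) = 3 * (W * ∑ x ∈ QQ lev x₀, a x) := by ring
    rw [h4]
    rw [mul_one] at key
    rw [mul_left_comm, ← div_eq_inv_mul, le_div_iff₀ h2]
    exact key
  -- the rest
  have hrest : ∏ x ∈ univ.filter (fun x => lev x₀ < lev x), ∏ l : Fin 3,
      (#(Xset K G g₁ g₂ B r₀ v (x, l)) : ℝ) ^ (W * a x) ≤
      (∏ x ∈ univ.filter (fun x => lev x₀ < lev x), ∏ _l : Fin 3, (th a x * card V) ^ (W * a x)) *
        (∏ x ∈ univ.filter (fun x => lev x₀ < lev x), ((tot a : ℝ) / a x) ^ (3 * a x)) ^ W := by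
    rw [← Finset.prod_pow, ← Finset.prod_mul_distrib]
    apply Finset.prod_le_prod
    · intro x _
      exact Finset.prod_nonneg (fun l _ => pow_nonneg (Nat.cast_nonneg _) _)
    · intro x _
      rw [Finset.prod_const, Finset.card_univ, Fintype.card_fin]
      have h5 : ∀ l : Fin 3, (#(Xset K G g₁ g₂ B r₀ v (x, l)) : ℝ) ^ (W * a x) ≤
          (card V : ℝ) ^ (W * a x) := fun l =>
        pow_le_pow_left₀ (Nat.cast_nonneg _) (by exact_mod_cast Finset.card_le_univ _) _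
      calc ∏ l : Fin 3, (#(Xset K G g₁ g₂ B r₀ v (x, l)) : ℝ) ^ (W * a x)
          ≤ ∏ _l : Fin 3, (card V : ℝ) ^ (W * a x) :=
            Finset.prod_le_prod (fun l _ => by positivity) (fun l _ => h5 l)
        _ = ((th a x * card V) ^ (W * a x)) ^ 3 * ((tot a / a x : ℝ) ^ (3 * a x)) ^ W := by
            rw [Finset.prod_const, Finset.card_univ, Fintype.card_fin]
            have h6 : ((tot a / a x : ℝ) ^ (3 * a x)) ^ W = ((tot a / a x : ℝ) ^ (W * a x)) ^ 3 := by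
              rw [← pow_mul, ← pow_mul]; congr 1; ring
            have e : (card V : ℝ) = th a x * card V * (tot a / a x) := by
              unfold th
              have := (hax x).ne'
              field_simp
            rw [h6, ← mul_pow, ← mul_pow]
            exact congrArg (fun t : ℝ => (t ^ (W * a x)) ^ 3) e
  have hsp1 := prod_split (fun r => (#(Xset K G g₁ g₂ B r₀ v r) : ℝ) ^ (W * a r.1)) x₀ lev
  have hsp2 := prod_split (fun r => (th a r.1 * (card V : ℝ)) ^ (W * a r.1)) x₀ lev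
  simp only at hsp1 hsp2
  rw [hsp1, hsp2]
  have hfac := factor_le hK x₀
  have hfac' : ((2 : ℝ) ^ (-(a x₀ : ℝ)) * ((tot a : ℝ) / (∑ x ∈ QQ lev x₀, (a x : ℝ))) ^
        (3 * ∑ x ∈ QQ lev x₀, a x)) ^ W *
      (∏ x ∈ univ.filter (fun x => lev x₀ < lev x), ((tot a : ℝ) / a x) ^ (3 * a x)) ^ W ≤
      (2 : ℝ) ^ (-(W : ℝ) / 2) := by
    rw [← mul_pow]
    have h7 : (2 : ℝ) ^ (-(W : ℝ) / 2) = ((2 : ℝ) ^ (-(1 : ℝ) / 2)) ^ W := by
      rw [← Real.rpow_natCast, ← Real.rpow_mul (by norm_num)]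
      congr 1; ring
    rw [h7]
    apply pow_le_pow_left₀ _ hfac
    refine mul_nonneg (mul_nonneg (by positivity) (by positivity)) ?_
    exact Finset.prod_nonneg (fun x _ => by positivity)
  have hthpos : ∀ x, 0 < th a x := th_pos a hK.apos
  calc _ ≤ ((∏ s ∈ QQ lev x₀ ×ˢ (univ : Finset (Fin 3)), (th a s.1 * card V) ^ (W * a s.1)) *
        ((2 : ℝ) ^ (-(a x₀ : ℝ)) * ((tot a : ℝ) / (∑ x ∈ QQ lev x₀, (a x : ℝ))) ^
        (3 * ∑ x ∈ QQ lev x₀, a x)) ^ W) *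
        ((∏ x ∈ univ.filter (fun x => lev x₀ < lev x), ∏ _l : Fin 3, (th a x * card V) ^ (W * a x)) *
        (∏ x ∈ univ.filter (fun x => lev x₀ < lev x), ((tot a : ℝ) / a x) ^ (3 * a x)) ^ W) := by
        apply mul_le_mul hQ hrest
        · exact Finset.prod_nonneg (fun x _ => Finset.prod_nonneg (fun l _ => by positivity))
        · refine mul_nonneg (Finset.prod_nonneg (fun s _ => ?_)) (by positivity)
          exact pow_nonneg (mul_nonneg (hthpos _).le hn.le) _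
    _ = ((∏ s ∈ QQ lev x₀ ×ˢ (univ : Finset (Fin 3)), (th a s.1 * card V) ^ (W * a s.1)) *
        ∏ x ∈ univ.filter (fun x => lev x₀ < lev x), ∏ _l : Fin 3, (th a x * card V) ^ (W * a x)) *
        (((2 : ℝ) ^ (-(a x₀ : ℝ)) * ((tot a : ℝ) / (∑ x ∈ QQ lev x₀, (a x : ℝ))) ^
        (3 * ∑ x ∈ QQ lev x₀, a x)) ^ W *
        (∏ x ∈ univ.filter (fun x => lev x₀ < lev x), ((tot a : ℝ) / a x) ^ (3 * a x)) ^ W) := by
        ring
    _ ≤ _ := by
        apply mul_le_mul_of_nonneg_left hfac'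
        refine mul_nonneg (Finset.prod_nonneg (fun s _ => ?_))
          (Finset.prod_nonneg (fun x _ => Finset.prod_nonneg (fun l _ => ?_)))
        · exact pow_nonneg (mul_nonneg (hthpos _).le hn.le) _
        · exact pow_nonneg (mul_nonneg (hthpos _).le hn.le) _

theorem stTL : StTL := by
  intro X _ _ K L lev a hK V _ G hG W v r₀ g₁ g₂ B hv
  constructor
  · rintro rfl
    exact sum_Xset_le hK hG hv
  · split_ifs with hB
    · subst hB
      rw [mul_one]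
      exact prod_bound_empty hK hG hv W
    · exact prod_bound_bad hK hG hv (Finset.nonempty_iff_ne_empty.mpr hB) W

end H78D
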