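import Pool.Agent.H78.Dis.Inst
import Pool.Agent.H78.Dis.TL
import Pool.Agent.H78.Dis.SB
import Pool.Agent.H36.Dis.StAT
import Pool.Agent.H36.Dis.StMain
import Pool.Agent.H66.Dis.TR
import Pool.Agent.H66.Dis.EX
import Pool.Agent.H78.Dis.Deg
import Pool.Agent.H31.Dis.Cnt
import Pool.Agent.H52.Dis.ST

set_option autoImplicit false

/-! # From the modules to a graph on `Fin m` -/

open Finset Fintype

namespace H78D

open H67Blow (num injs)

theorem stMain : StMain :=
  stMain_of (stAT_of H87Dis.stDeg H31Dis.stCnt stSB) Pool.Agent.H52.Dis.stST stEX stTR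

/-- number of labelled copies of isomorphic graphs -/
lemma num_iso {U U' V : Type} [Fintype U] [Fintype U'] [Fintype V] (H : SimpleGraph U)
    (e : U' ≃ U) (G : SimpleGraph V) : num (H.comap e) G = num H G := by
  classical
  unfold num
  apply Finset.card_bij (fun f _ => f ∘ e.symm)
  · intro f hf
    simp only [injs, mem_filter, mem_univ, true_and] at hf ⊢
    refine ⟨hf.1.comp e.symm.injective, fun a b hab => hf.2 _ _ ?_⟩
    rw [SimpleGraph.comap_adj, e.apply_symm_apply, e.apply_symm_apply]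
    exact hab
  · intro f _ g _ h
    funext x
    have := congrFun h (e x)
    simpa using this
  · intro f hf
    simp only [injs, mem_filter, mem_univ, true_and] at hf
    refine ⟨f ∘ e, ?_, ?_⟩
    · simp only [injs, mem_filter, mem_univ, true_and]
      exact ⟨hf.1.comp e.injective, fun a b hab => hf.2 _ _ hab⟩
    · funext x; simp

lemma colorable3 {X : Type} (K : SimpleGraph X) (a : X → ℕ) (W : ℕ) : (HG K a W).Colorable 3 :=
  ⟨SimpleGraph.Coloring.mk (fun p => p.1.2) (fun {p q} h => h.2)⟩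

lemma not_colorable2 {X : Type} (K : SimpleGraph X) (a : X → ℕ) (W : ℕ) {x y z : X}
    (hxy : K.Adj x y) (hxz : K.Adj x z) (hyz : K.Adj y z) : ¬ (HG K a W).Colorable 2 := by
  rintro ⟨C⟩
  have h1 : (HG K a W).Adj ⟨(x, 0), Sum.inr 0⟩ ⟨(y, 1), Sum.inr 0⟩ := ⟨hxy, show (0 : Fin 3) ≠ 1 by decide⟩
  have h2 : (HG K a W).Adj ⟨(x, 0), Sum.inr 0⟩ ⟨(z, 2), Sum.inr 0⟩ := ⟨hxz, show (0 : Fin 3) ≠ 2 by decide⟩
  have h3 : (HG K a W).Adj ⟨(y, 1), Sum.inr 0⟩ ⟨(z, 2), Sum.inr 0⟩ := ⟨hyz, show (1 : Fin 3) ≠ 2 by decide⟩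
  have c1 := C.valid h1
  have c2 := C.valid h2
  have c3 := C.valid h3
  have : ∀ i j k : Fin 2, i ≠ j → i ≠ k → j ≠ k → False := by decide
  exact this _ _ _ c1 c2 c3

/-- a good pattern gives a graph `H` on `Fin m` with `χ(H) = 3` such that no blow-up of a fixed
graph is extremal for large `n`. -/
theorem exists_graph {X : Type} [Fintype X] [DecidableEq X] (K : SimpleGraph X) (L : Finset X)
    (lev a : X → ℕ) (hK : Good K L lev a) (hF : Flex K L a) :
    ∃ (m : ℕ) (H : SimpleGraph (Fin m)), H.Colorable 3 ∧ ¬ H.Colorable 2 ∧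
      ∀ (p : ℕ) (G₀ : SimpleGraph (Fin p)), ∃ n₀ : ℕ, ∀ n ≥ n₀, ∀ φ : Fin n → Fin p,
        ¬ Ext H (G₀.comap φ) := by
  obtain ⟨W, hW⟩ := stMain X K L lev a hK hF
  let e : Fin (card (HV a W)) ≃ HV a W := (Fintype.equivFin _).symm
  refine ⟨card (HV a W), (HG K a W).comap e, ?_, ?_, ?_⟩
  · obtain ⟨C⟩ := colorable3 K a W
    exact ⟨SimpleGraph.Coloring.mk (fun i => C (e i)) (fun {i j} h => C.valid h)⟩
  · obtain ⟨x, _⟩ := hK.Lne
    obtain ⟨b, c, hbc, hbx, -, hcx, -⟩ := hK.mid x x (K.loopless.irrefl x) (fun _ _ => rfl)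
    intro hcol
    apply not_colorable2 K a W hbc hbx hcx
    obtain ⟨C⟩ := hcol
    refine ⟨SimpleGraph.Coloring.mk (fun p => C (e.symm p)) (fun {p q} h => C.valid ?_)⟩
    rw [SimpleGraph.comap_adj, e.apply_symm_apply, e.apply_symm_apply]
    exact h
  · intro p G₀
    obtain ⟨n₀, hn₀⟩ := hW p
    refine ⟨n₀, fun n hn φ hE => hn₀ n hn G₀ φ ⟨hE.1, fun G' hG' => ?_⟩⟩
    have := hE.2 G' hG'
    rwa [num_iso, num_iso] at this

end H78D
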