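import Pool.Agent.H78.Dis.Defs

set_option autoImplicit false

/-!
# The graph `K` on 30 vertices (found by a SAT solver; it has a symmetry of order 5)

`L = {0, 1, 2, 3, 4}` are the five far vertices; bit `30 x + y` of `BIG` tells whether `x ∼ y`.
Classes `21, 22, 23, 24` are split between the colours `(0,1), (1,2), (2,3), (3,4)`.
-/

open Finset Fintype

namespace H78D.Inst

/-- adjacency matrix -/
def BIG : ℕ :=
  1745563234627983455031894432904917839041832951719643323766504535586173014559275801010364820449480351343030938373807440909342221962897470004346855963637335592570987247188337392782875645461678872649317455972705125460394786921777925178714320434310664552522212745302138470432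

def adjB (x y : ℕ) : Bool := Nat.testBit BIG (30 * x + y)

lemma adjB_symm : ∀ x y : Fin 30, adjB x y = true → adjB y x = true := by decide +kernel

lemma adjB_irrefl : ∀ x : Fin 30, ¬ adjB x x = true := by decide +kernel

/-- the graph -/
def K : SimpleGraph (Fin 30) where
  Adj x y := adjB x y = true
  symm := ⟨fun x y h => adjB_symm x y h⟩
  loopless := ⟨fun x h => adjB_irrefl x h⟩

instance : DecidableRel K.Adj := fun x y => inferInstanceAs (Decidable (adjB x y = true))

/-- the far vertices -/
def L : Finset (Fin 30) := {0, 1, 2, 3, 4}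

/-- levels -/
def lev : Fin 30 → ℕ :=
  ![2, 2, 2, 2, 2, 2, 1, 2, 2, 2, 0, 2, 1, 1, 2, 2, 1, 1, 2, 2, 1, 2, 0, 2, 1, 1, 2, 1, 2, 2]

/-- weights -/
def a : Fin 30 → ℕ :=
  ![24579, 8388617, 25165831, 20485, 28676,
    137438953472, 562949953421312, 137438953472, 137438953472, 137438953472,
    1152921504606846976, 137438953472, 562949953421312, 562949953421312, 137438953472,
    137438953472, 562949953421312, 562949953421312, 137438953472, 137438953472,
    562949953421312, 137438953472, 1152921504606846976, 137438953472, 562949953421312,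
    562949953421312, 137438953472, 562949953421312, 137438953472, 137438953472]

/-- colours; the class `x` with `21 ≤ x ≤ 24` may also get the colour `kap x + 1`. -/
def kap : Fin 30 → Fin 30 :=
  ![0, 1, 2, 3, 4, 2, 3, 4, 0, 1, 2, 3, 4, 0, 1, 3, 4, 0, 1, 2, 4, 0, 1, 2, 3, 3, 4, 0, 1, 2]

lemma tot_a : tot a = 2310911482973462556 := by decide +kernel

lemma a_pos : ∀ x, 0 < a x := by decide +kernel

/-- classes with the same colour are nonadjacent. -/
lemma kap_ok : ∀ x y : Fin 30, (kap x = kap y ∨ (21 ≤ x.val ∧ x.val ≤ 24 ∧ (kap x).val + 1 = (kap y).val)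
    ∨ (21 ≤ y.val ∧ y.val ≤ 24 ∧ (kap x).val = (kap y).val + 1)
    ∨ (21 ≤ x.val ∧ x.val ≤ 24 ∧ 21 ≤ y.val ∧ y.val ≤ 24 ∧ (kap x).val + 1 = (kap y).val + 1)) →
    ¬ K.Adj x y := by decide +kernel

end H78D.Inst
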