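import Pool.Agent.H78.Dis.Graph

set_option autoImplicit false

/-! # The hierarchy of the weights -/

open Finset Fintype

namespace H78D.Inst

/-- bounds for the binary logarithms of `tot a / a x` -/
def ee (x : Fin 30) : ℕ := if x.val < 5 then 47 else if lev x = 0 then 2 else if lev x = 1 then 13 else 25

lemma ee_chk : ∀ x, tot a ≤ a x * 2 ^ ee x := by decide +kernel

lemma hn_chk : ∀ x₀ : Fin 30, 60 * (∑ x ∈ univ.filter (fun x => lev x₀ < lev x), a x * ee x) +
    87 * (tot a - ∑ x ∈ univ.filter (fun x => lev x ≤ lev x₀), a x) ≤ 10 * a x₀ := by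
  decide +kernel

theorem hn : ∀ x₀, 3 * (∑ x ∈ univ.filter (fun x => lev x₀ < lev x),
        (a x : ℝ) * Real.log (tot a / a x)
      + (∑ x ∈ univ.filter (fun x => lev x ≤ lev x₀), (a x : ℝ)) *
        Real.log (tot a / ∑ x ∈ univ.filter (fun x => lev x ≤ lev x₀), (a x : ℝ)))
      ≤ (a x₀ : ℝ) / 2 * Real.log 2 := by
  intro x₀
  have htot : (0 : ℝ) < tot a := by rw [tot_a]; norm_num
  have hapos : ∀ x, (0 : ℝ) < a x := fun x => by exact_mod_cast a_pos x
  have h1 : ∀ x, Real.log (tot a / a x) ≤ ee x * Real.log 2 := by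
    intro x
    rw [← Real.log_rpow (by norm_num), Real.rpow_natCast]
    apply Real.log_le_log (div_pos htot (hapos x))
    rw [div_le_iff₀ (hapos x)]
    have := ee_chk x
    have h2 : (tot a : ℝ) ≤ ((a x * 2 ^ ee x : ℕ) : ℝ) := by exact_mod_cast this
    push_cast at h2
    linarith
  have h2 : ∑ x ∈ univ.filter (fun x => lev x₀ < lev x), (a x : ℝ) * Real.log (tot a / a x) ≤
      ((∑ x ∈ univ.filter (fun x => lev x₀ < lev x), a x * ee x : ℕ) : ℝ) * Real.log 2 := by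
    push_cast
    rw [Finset.sum_mul]
    apply Finset.sum_le_sum
    intro x _
    rw [mul_assoc]
    exact mul_le_mul_of_nonneg_left (h1 x) (hapos x).le
  have hAQpos : 0 < ∑ x ∈ univ.filter (fun x => lev x ≤ lev x₀), (a x : ℝ) :=
    Finset.sum_pos (fun x _ => hapos x) ⟨x₀, by simp⟩
  have hAQle : ∑ x ∈ univ.filter (fun x => lev x ≤ lev x₀), a x ≤ tot a :=
    Finset.sum_le_sum_of_subset (Finset.filter_subset _ _)
  have h3 : (∑ x ∈ univ.filter (fun x => lev x ≤ lev x₀), (a x : ℝ)) *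
        Real.log (tot a / ∑ x ∈ univ.filter (fun x => lev x ≤ lev x₀), (a x : ℝ)) ≤
      ((tot a - ∑ x ∈ univ.filter (fun x => lev x ≤ lev x₀), a x : ℕ) : ℝ) := by
    rw [Nat.cast_sub hAQle]
    push_cast
    set AQ := ∑ x ∈ univ.filter (fun x => lev x ≤ lev x₀), (a x : ℝ)
    have h4 := Real.log_le_sub_one_of_pos (div_pos htot hAQpos)
    calc AQ * Real.log (tot a / AQ) ≤ AQ * (tot a / AQ - 1) :=
          mul_le_mul_of_nonneg_left h4 hAQpos.le
      _ = tot a - AQ := by field_simp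
  have h5 : (60 * (∑ x ∈ univ.filter (fun x => lev x₀ < lev x), a x * ee x : ℕ) : ℝ) +
      87 * ((tot a - ∑ x ∈ univ.filter (fun x => lev x ≤ lev x₀), a x : ℕ) : ℝ) ≤
      10 * (a x₀ : ℝ) := by exact_mod_cast hn_chk x₀
  have h6 : (20 : ℝ) / 29 ≤ Real.log 2 := by
    have := Real.log_two_gt_d9
    norm_num at this ⊢
    linarith
  have h7 : (0 : ℝ) ≤ ((tot a - ∑ x ∈ univ.filter (fun x => lev x ≤ lev x₀), a x : ℕ) : ℝ) :=
    Nat.cast_nonneg _
  generalize ((tot a - ∑ x ∈ univ.filter (fun x => lev x ≤ lev x₀), a x : ℕ) : ℝ) = T at *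
  generalize ((∑ x ∈ univ.filter (fun x => lev x₀ < lev x), a x * ee x : ℕ) : ℝ) = E at *
  have h8 : T ≤ (29 : ℝ) / 20 * T * Real.log 2 := by nlinarith
  have h9 : (60 * E + 87 * T) * Real.log 2 ≤ 10 * (a x₀ : ℝ) * Real.log 2 :=
    mul_le_mul_of_nonneg_right h5 (by linarith)
  nlinarith

end H78D.Inst
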