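import Pool.Agent.H78.Dis.Checks

set_option autoImplicit false

/-! # The graph `K` is a good pattern -/

open Finset Fintype

namespace H78D.Inst

lemma levels_of {x₁ x₂ x₃ : Fin 30} (h12 : x₁ ≠ x₂) (h13 : x₁ ≠ x₃) (h23 : x₂ ≠ x₃) :
    ∃ b c d, K.Adj b c ∧ K.Adj b d ∧ K.Adj c d ∧
    (K.Adj x₁ b ∨ K.Adj x₂ b ∨ K.Adj x₃ b) ∧ (K.Adj x₁ c ∨ K.Adj x₂ c ∨ K.Adj x₃ c) ∧
    (K.Adj x₁ d ∨ K.Adj x₂ d ∨ K.Adj x₃ d) ∧
    (lev b < lev x₁ ∨ lev b < lev x₂ ∨ lev b < lev x₃) := by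
  by_cases h2 : lev x₁ = 2 ∨ lev x₂ = 2 ∨ lev x₃ = 2
  · obtain ⟨⟨g1, g2, g3, g4, g5, g6⟩, g7⟩ := lv2_chk x₁ x₂ h12
    refine ⟨_, _, _, g1, g2, g3, ?_, ?_, ?_, ?_⟩
    · tauto
    · tauto
    · tauto
    · rcases h2 with h | h | h <;> rw [h] <;> tauto
  · have l1 := lev_le x₁
    have l2 := lev_le x₂
    have l3 := lev_le x₃
    have k1 : lev x₁ < 2 := by omega
    have k2 : lev x₂ < 2 := by omega
    have k3 : lev x₃ < 2 := by omega
    -- one of the levels is 1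
    have hone : 1 ≤ lev x₁ ∨ 1 ≤ lev x₂ ∨ 1 ≤ lev x₃ := by
      by_contra hcon
      push Not at hcon
      obtain ⟨e1, e2, e3⟩ := hcon
      rcases lev_zero x₁ e1 with r1 | r1 <;> rcases lev_zero x₂ e2 with r2 | r2 <;>
        rcases lev_zero x₃ e3 with r3 | r3 <;> subst r1 <;> subst r2 <;> subst r3 <;>
        first | exact h12 rfl | exact h13 rfl | exact h23 rfl
    have hfin : ∀ b : Fin 30, lev b < 1 →
        (lev b < lev x₁ ∨ lev b < lev x₂ ∨ lev b < lev x₃) := by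
      intro b hb
      omega
    by_cases hb12 : bad x₁ x₂
    · have hb13 : ¬ bad x₁ x₃ := fun h => h23 (bad_unique x₁ x₂ x₃ hb12 h)
      obtain ⟨⟨g1, g2, g3, g4, g5, g6⟩, g7⟩ := lv1_chk x₁ x₃ h13 k1 k3 hb13
      refine ⟨_, _, _, g1, g2, g3, ?_, ?_, ?_, hfin _ g7⟩
      · tauto
      · tauto
      · tauto
    · obtain ⟨⟨g1, g2, g3, g4, g5, g6⟩, g7⟩ := lv1_chk x₁ x₂ h12 k1 k2 hb12
      refine ⟨_, _, _, g1, g2, g3, ?_, ?_, ?_, hfin _ g7⟩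
      · tauto
      · tauto
      · tauto

/-- `Good` from the two remaining fields. -/
theorem good_of
    (htc : ∀ D : Fin 30 × Fin 3 → Prop, (∀ r s q, (HR K).Adj r s → (HR K).Adj r q →
      (HR K).Adj s q → D r → D s → D q) → ∀ r s, (HR K).Adj r s → D r → D s → ∀ q, D q)
    (hhn : ∀ x₀, 3 * (∑ x ∈ univ.filter (fun x => lev x₀ < lev x),
        (a x : ℝ) * Real.log (tot a / a x)
      + (∑ x ∈ univ.filter (fun x => lev x ≤ lev x₀), (a x : ℝ)) *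
        Real.log (tot a / ∑ x ∈ univ.filter (fun x => lev x ≤ lev x₀), (a x : ℝ)))
      ≤ (a x₀ : ℝ) / 2 * Real.log 2) : Good K L lev a where
  k4 := fun x y z w hxy hxz hxw hyz hyw hzw => k4_chk x y hxy z hxz hyz w hxw hyw hzw
  farNonadj := fun x hx y hy => farNonadj_chk x y ((mem_L x).mp hx) ((mem_L y).mp hy)
  far := fun x hx y hy hne z hzx hzy =>
    far_chk x y z ((mem_L x).mp hx) ((mem_L y).mp hy) hne ⟨hzx, hzy⟩
  mid := fun x y hxy hL => by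
    obtain ⟨h1, h2, h3, h4, h5⟩ := mid_chk x y hxy
      (fun hx hy => hL ((mem_L x).mpr hx) ((mem_L y).mpr hy))
    exact ⟨_, _, h1, h2, h3, h4, h5⟩
  uni := fun x y hxy => by
    obtain ⟨h1, h2, h3, h4, h5, h6⟩ := uni_chk x y hxy
    exact ⟨_, _, _, h1, h2, h3, h4, h5, h6⟩
  levels := fun x₁ x₂ x₃ h12 h13 h23 => levels_of h12 h13 h23
  tc := htc
  avoid := avoid_chk
  apos := a_pos
  notL := ⟨5, by decide⟩
  Lne := ⟨0, by decide⟩
  hn := hhn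

end H78D.Inst
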