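import Pool.Agent.H78.Dis.AG

set_option autoImplicit false

/-! # Types of vertices -/

open Finset Fintype

namespace H78D

lemma noK4 {V : Type*} {G : SimpleGraph V} (hG : G.CliqueFree 4) {a b c d : V}
    (hab : G.Adj a b) (hac : G.Adj a c) (had : G.Adj a d) (hbc : G.Adj b c) (hbd : G.Adj b d)
    (hcd : G.Adj c d) : False := by
  classical
  refine hG {a, b, c, d} ?_
  rw [SimpleGraph.isNClique_iff]
  constructor
  · simp only [SimpleGraph.isClique_iff, Set.Pairwise]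
    intro x hx y hy hxy
    simp only [coe_insert, coe_singleton, Set.mem_insert_iff, Set.mem_singleton_iff] at hx hy
    rcases hx with rfl | rfl | rfl | rfl <;> rcases hy with rfl | rfl | rfl | rfl <;>
      first | exact (hxy rfl).elim | assumption | (apply SimpleGraph.Adj.symm; assumption)
  · rw [Finset.card_insert_of_notMem, Finset.card_insert_of_notMem, Finset.card_insert_of_notMem,
      Finset.card_singleton]
    · simpa using hcd.ne
    · simp only [mem_insert, mem_singleton, not_or]; exact ⟨hbc.ne, hbd.ne⟩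
    · simp only [mem_insert, mem_singleton, not_or]; exact ⟨hab.ne, hac.ne, had.ne⟩

/-- the third colour -/
lemma exists_third (l l' : Fin 3) : ∃ m : Fin 3, m ≠ l ∧ m ≠ l' := by
  revert l l'; decide

lemma exists_two (l : Fin 3) : ∃ l' l'' : Fin 3, l' ≠ l ∧ l'' ≠ l ∧ l' ≠ l'' := by
  revert l; decide

variable {X : Type} [Fintype X] [DecidableEq X] {V : Type} [Fintype V]
variable {K : SimpleGraph X} {L : Finset X} {lev a : X → ℕ}
variable {G : SimpleGraph V} {g₁ g₂ : X × Fin 3 → V} {B : Finset (X × Fin 3)}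
variable {r₀ : X × Fin 3} {v : V}

lemma mem_Yset {x : X} {u : V} {g : X × Fin 3 → V} :
    u ∈ Yset K G g x ↔ ∀ y m, K.Adj x y → G.Adj u (g (y, m)) := by
  simp [Yset]

lemma mem_Xset {r : X × Fin 3} {u : V} : u ∈ Xset K G g₁ g₂ B r₀ v r ↔
    (∀ s, (HR K).Adj r s → G.Adj u (g₁ s) ∧ G.Adj u (g₂ s)) ∧
    (r ∈ B → u ∉ Yset K G g₁ r.1) ∧ ((HR K).Adj r r₀ → G.Adj u v) := by
  simp [Xset]

lemma adj_g1 {x y : X} {l m : Fin 3} {u : V} (hu : u ∈ Xset K G g₁ g₂ B r₀ v (x, l))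
    (h : K.Adj x y) (hlm : l ≠ m) : G.Adj u (g₁ (y, m)) :=
  ((mem_Xset.mp hu).1 (y, m) ⟨h, hlm⟩).1

lemma adj_g2 {x y : X} {l m : Fin 3} {u : V} (hu : u ∈ Xset K G g₁ g₂ B r₀ v (x, l))
    (h : K.Adj x y) (hlm : l ≠ m) : G.Adj u (g₂ (y, m)) :=
  ((mem_Xset.mp hu).1 (y, m) ⟨h, hlm⟩).2

/-- different vertices of `K` in a type: same colour. -/
lemma claimA (hK : Good K L lev a) (hG : G.CliqueFree 4) (hv : Valid K G g₁ g₂ B)
    {x y : X} {l l' : Fin 3} {u : V} (hxy : x ≠ y)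
    (hu : u ∈ Xset K G g₁ g₂ B r₀ v (x, l)) (hu' : u ∈ Xset K G g₁ g₂ B r₀ v (y, l')) : l = l' := by
  by_contra hne
  obtain ⟨b, c, d, hbc, hbd, hcd, hxb, hyc, hd⟩ := hK.uni x y hxy
  obtain ⟨m, hm, hm'⟩ := exists_third l l'
  refine noK4 hG (adj_g1 hu hxb hne) (adj_g1 hu' hyc (Ne.symm hne)) ?_
    (hv.1 (b, l') (c, l) ⟨hbc, Ne.symm hne⟩) (hv.1 (b, l') (d, m) ⟨hbd, hm'.symm⟩)
    (hv.1 (c, l) (d, m) ⟨hcd, hm.symm⟩)
  rcases hd with hd | hd
  · exact adj_g1 hu hd hm.symm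
  · exact adj_g1 hu' hd hm'.symm

lemma claimY {x : X} {l l' : Fin 3} {u : V} (hne : l ≠ l')
    (hu : u ∈ Xset K G g₁ g₂ B r₀ v (x, l)) (hu' : u ∈ Xset K G g₁ g₂ B r₀ v (x, l')) :
    u ∈ Yset K G g₁ x := by
  rw [mem_Yset]
  intro y m hy
  by_cases h : l = m
  · subst h
    exact adj_g1 hu' hy (Ne.symm hne)
  · exact adj_g1 hu hy h

/-- three different vertices of `K` in a type. -/
lemma claimB (hK : Good K L lev a) (hG : G.CliqueFree 4) (hv : Valid K G g₁ g₂ B)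
    {x₁ x₂ x₃ : X} {l : Fin 3} {u : V} (h12 : x₁ ≠ x₂) (h13 : x₁ ≠ x₃) (h23 : x₂ ≠ x₃)
    (hB : ∀ r ∈ B, lev x₁ ≤ lev r.1 ∧ lev x₂ ≤ lev r.1 ∧ lev x₃ ≤ lev r.1)
    (h1 : u ∈ Xset K G g₁ g₂ B r₀ v (x₁, l)) (h2 : u ∈ Xset K G g₁ g₂ B r₀ v (x₂, l))
    (h3 : u ∈ Xset K G g₁ g₂ B r₀ v (x₃, l)) : False := by
  obtain ⟨b, c, d, hbc, hbd, hcd, hb, hc, hd, hlev⟩ := hK.levels x₁ x₂ x₃ h12 h13 h23
  obtain ⟨l', l'', hl', hl'', hll⟩ := exists_two l
  have hbB : (b, l') ∉ B := by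
    intro hmem
    have := hB _ hmem
    simp only at this
    omega
  have hY := mem_Yset.mp (hv.2 _ hbB)
  have hub : G.Adj u (g₂ (b, l')) := by
    rcases hb with hb | hb | hb
    · exact adj_g2 h1 hb hl'.symm
    · exact adj_g2 h2 hb hl'.symm
    · exact adj_g2 h3 hb hl'.symm
  have huc : G.Adj u (g₁ (c, l')) := by
    rcases hc with hc | hc | hc
    · exact adj_g1 h1 hc hl'.symm
    · exact adj_g1 h2 hc hl'.symm
    · exact adj_g1 h3 hc hl'.symm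
  have hud : G.Adj u (g₁ (d, l'')) := by
    rcases hd with hd | hd | hd
    · exact adj_g1 h1 hd hl''.symm
    · exact adj_g1 h2 hd hl''.symm
    · exact adj_g1 h3 hd hl''.symm
  exact noK4 hG hub huc hud (hY c l' hbc) (hY d l'' hbd) (hv.1 (c, l') (d, l'') ⟨hcd, hll⟩)

open Classical in
/-- the type of `u` restricted to the roles over `Q`. -/
noncomputable def typ (K : SimpleGraph X) (G : SimpleGraph V) (g₁ g₂ : X × Fin 3 → V)
    (B : Finset (X × Fin 3)) (r₀ : X × Fin 3) (v : V) (Q : Finset X) (u : V) :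
    Finset (X × Fin 3) :=
  (Q ×ˢ univ).filter (fun r => u ∈ Xset K G g₁ g₂ B r₀ v r)

lemma mem_typ {Q : Finset X} {u : V} {r : X × Fin 3} :
    r ∈ typ K G g₁ g₂ B r₀ v Q u ↔ r.1 ∈ Q ∧ u ∈ Xset K G g₁ g₂ B r₀ v r := by
  simp [typ]

/-- a type is over one vertex of `K`, or has at most 2 elements. -/
lemma typ_cases (hK : Good K L lev a) (hG : G.CliqueFree 4) (hv : Valid K G g₁ g₂ B)
    (Q : Finset X) (hQ : ∀ r ∈ B, ∀ x ∈ Q, lev x ≤ lev r.1) (u : V) :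
    (∃ x, ∀ r ∈ typ K G g₁ g₂ B r₀ v Q u, r.1 = x) ∨ #(typ K G g₁ g₂ B r₀ v Q u) ≤ 2 := by
  by_cases h : ∃ r ∈ typ K G g₁ g₂ B r₀ v Q u, ∃ s ∈ typ K G g₁ g₂ B r₀ v Q u, r.1 ≠ s.1
  · right
    obtain ⟨r, hr, s, hs, hrs⟩ := h
    have hr' := (mem_typ.mp hr).2
    have hs' := (mem_typ.mp hs).2
    have hcol : ∀ t ∈ typ K G g₁ g₂ B r₀ v Q u, t.2 = r.2 := by
      intro t ht
      have ht' := (mem_typ.mp ht).2
      have e1 : s.2 = r.2 := claimA hK hG hv (x := s.1) (y := r.1) (l := s.2) (l' := r.2)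
        (Ne.symm hrs) hs' hr'
      by_cases h1 : t.1 = r.1
      · have : t.1 ≠ s.1 := by rw [h1]; exact hrs
        have e2 : t.2 = s.2 := claimA hK hG hv (x := t.1) (y := s.1) this ht' hs'
        rw [e2, e1]
      · exact claimA hK hG hv (x := t.1) (y := r.1) h1 ht' hr'
    by_contra hcon
    push Not at hcon
    obtain ⟨t₁, ht₁, t₂, ht₂, t₃, ht₃, h12, h13, h23⟩ := Finset.two_lt_card.mp hcon
    have hd : ∀ t ∈ typ K G g₁ g₂ B r₀ v Q u, ∀ t' ∈ typ K G g₁ g₂ B r₀ v Q u, t ≠ t' →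
        t.1 ≠ t'.1 := by
      intro t ht t' ht' hne h
      exact hne (Prod.ext h (by rw [hcol t ht, hcol t' ht']))
    have m1 := mem_typ.mp ht₁
    have m2 := mem_typ.mp ht₂
    have m3 := mem_typ.mp ht₃
    refine claimB hK hG hv (x₁ := t₁.1) (x₂ := t₂.1) (x₃ := t₃.1) (l := r.2) (u := u) (r₀ := r₀)
      (v := v)
      (hd _ ht₁ _ ht₂ h12) (hd _ ht₁ _ ht₃ h13) (hd _ ht₂ _ ht₃ h23)
      (fun b hb => ⟨hQ b hb _ m1.1, hQ b hb _ m2.1, hQ b hb _ m3.1⟩) ?_ ?_ ?_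
    · rw [← hcol _ ht₁]; exact m1.2
    · rw [← hcol _ ht₂]; exact m2.2
    · rw [← hcol _ ht₃]; exact m3.2
  · left
    push Not at h
    by_cases hne : (typ K G g₁ g₂ B r₀ v Q u).Nonempty
    · obtain ⟨r, hr⟩ := hne
      exact ⟨r.1, fun s hs => h s hs r hr⟩
    · rw [Finset.not_nonempty_iff_eq_empty] at hne
      exact ⟨r₀.1, fun s hs => by rw [hne] at hs; simp at hs⟩

lemma card_over (S : Finset (X × Fin 3)) (x : X) (h : ∀ r ∈ S, r.1 = x) : #S ≤ 3 := by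
  calc #S ≤ #(({x} : Finset X) ×ˢ (univ : Finset (Fin 3))) := by
        apply Finset.card_le_card
        intro r hr
        rw [Finset.mem_product]
        exact ⟨by rw [h r hr]; exact Finset.mem_singleton_self _, Finset.mem_univ _⟩
    _ = 3 := by simp

lemma typ_card (hK : Good K L lev a) (hG : G.CliqueFree 4) (hv : Valid K G g₁ g₂ B)
    (Q : Finset X) (hQ : ∀ r ∈ B, ∀ x ∈ Q, lev x ≤ lev r.1) (u : V) :
    #(typ K G g₁ g₂ B r₀ v Q u) ≤ 3 := by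
  rcases typ_cases hK hG hv Q hQ u (r₀ := r₀) (v := v) with ⟨x, hx⟩ | h
  · exact card_over _ x hx
  · omega

lemma typ_card_B (hK : Good K L lev a) (hG : G.CliqueFree 4) (hv : Valid K G g₁ g₂ B)
    (Q : Finset X) (hQ : ∀ r ∈ B, ∀ x ∈ Q, lev x ≤ lev r.1) (u : V) (r : X × Fin 3)
    (hrB : r ∈ B) (hr : r ∈ typ K G g₁ g₂ B r₀ v Q u) :
    #(typ K G g₁ g₂ B r₀ v Q u) ≤ 2 := by
  rcases typ_cases hK hG hv Q hQ u (r₀ := r₀) (v := v) with ⟨x, hx⟩ | h
  · have : #(typ K G g₁ g₂ B r₀ v Q u) ≤ 1 := by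
      rw [Finset.card_le_one]
      have hone : ∀ t ∈ typ K G g₁ g₂ B r₀ v Q u, t = r := by
        intro t ht
        by_contra hne
        have e : t.1 = r.1 := by rw [hx t ht, hx r hr]
        have hl : r.2 ≠ t.2 := fun h' => hne (Prod.ext e h'.symm)
        have mt := (mem_typ.mp ht).2
        have mr := (mem_typ.mp hr).2
        have hY := claimY (x := r.1) (l := r.2) (l' := t.2) (u := u) hl mr
          (by rw [← e]; exact mt)
        exact (mem_Xset.mp mr).2.1 hrB hY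
      intro t ht s hs
      rw [hone t ht, hone s hs]
    omega
  · exact h

/-- double counting -/
lemma sum_typ (Q : Finset X) : ∑ r ∈ Q ×ˢ (univ : Finset (Fin 3)), #(Xset K G g₁ g₂ B r₀ v r) =
    ∑ u : V, #(typ K G g₁ g₂ B r₀ v Q u) := by
  classical
  have h1 : ∀ r ∈ Q ×ˢ (univ : Finset (Fin 3)), #(Xset K G g₁ g₂ B r₀ v r) =
      ∑ u : V, if u ∈ Xset K G g₁ g₂ B r₀ v r then 1 else 0 := by
    intro r _
    simp
  rw [Finset.sum_congr rfl h1, Finset.sum_comm]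
  refine Finset.sum_congr rfl (fun u _ => ?_)
  unfold typ
  rw [Finset.card_filter]

end H78D
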